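import Pool.Agent.N686.DI.Int2
set_option autoImplicit false

/-!
The growth of the lower bound for the critical values of polynomials with different integral roots.
-/

namespace Pool.Agent.Run7.h363.CV

open Pool.Agent.N686.DI (mm mm_succ mm_pos mm_ge)

theorem mm_add {s : ℕ} (hs : 2 ≤ s) (e : ℕ) : (1 / 4 : ℝ) * ((s : ℝ) / 2) ^ e ≤ mm (s + e) := by
  induction e with
  | zero =>
    rw [pow_zero, mul_one]
    exact mm_ge hs
  | succ e ih =>
    rw [← add_assoc, mm_succ, pow_succ, ← mul_assoc]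
    refine mul_le_mul ih ?_ (by positivity) (mm_pos _).le
    have h1 : s ≤ 2 * ((s + e) / 2) + 1 := by omega
    have h2 : (s : ℝ) ≤ 2 * (((s + e) / 2 : ℕ) : ℝ) + 1 := by exact_mod_cast h1
    linarith

/-- For `t > 16 (n + 1)`, `n ≥ 1`, the lower bound is larger than the needed constant. -/
theorem mm_growth {n t : ℕ} (hn : 1 ≤ n) (ht : 16 * (n + 1) + 1 ≤ t) :
    48 * 2 ^ n * ((n : ℝ) + 1) * (t : ℝ) ^ (2 * (n + 1)) ≤ mm t := by
  set N : ℕ := n + 1 with hN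
  have hN2 : 2 ≤ N := by omega
  obtain ⟨s, rfl⟩ : ∃ s, t = s + 8 * N := ⟨t - 8 * N, by omega⟩
  have hs : 8 * N + 1 ≤ s := by omega
  have h1 := mm_add (by omega : 2 ≤ s) (8 * N)
  refine le_trans ?_ h1
  set t : ℝ := ((s + 8 * N : ℕ) : ℝ) with ht'
  have hts : t / 4 ≤ (s : ℝ) / 2 := by
    have h2 : s + 8 * N ≤ 2 * s := by omega
    have h3 : t ≤ 2 * (s : ℝ) := by
      rw [ht']
      exact_mod_cast h2
    linarith
  have ht33 : (33 : ℝ) ≤ t := by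
    have h2 : 33 ≤ s + 8 * N := by omega
    rw [ht']
    exact_mod_cast h2
  have h2 : (t / 4) ^ (8 * N) ≤ ((s : ℝ) / 2) ^ (8 * N) :=
    pow_le_pow_left₀ (by linarith) hts _
  refine le_trans ?_ (mul_le_mul_of_nonneg_left h2 (by norm_num))
  -- the constant
  have h3 : (n : ℝ) + 1 ≤ 2 ^ n := by
    have h4 : n + 1 ≤ 2 ^ n := Nat.lt_two_pow_self
    exact_mod_cast h4
  have h5 : 48 * 2 ^ n * ((n : ℝ) + 1) ≤ 12 * 4 ^ N := by
    calc 48 * 2 ^ n * ((n : ℝ) + 1) ≤ 48 * 2 ^ n * 2 ^ n :=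
          mul_le_mul_of_nonneg_left h3 (by positivity)
      _ = 12 * 4 ^ N := by
          rw [hN, pow_succ, mul_assoc, ← mul_pow]
          norm_num
          ring
  have h6 : (48 : ℝ) * (4 * t ^ 2) ≤ (t / 4) ^ 8 := by
    have h7 : (33 : ℝ) ^ 6 ≤ t ^ 6 := pow_le_pow_left₀ (by norm_num) ht33 6
    have h8 : (t / 4) ^ 8 = t ^ 2 * t ^ 6 / 65536 := by ring
    rw [h8]
    have h9 : 0 ≤ t ^ 2 := sq_nonneg t
    have h10 : t ^ 2 * (33 : ℝ) ^ 6 ≤ t ^ 2 * t ^ 6 := mul_le_mul_of_nonneg_left h7 h9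
    have h11 : (12582912 : ℝ) ≤ 33 ^ 6 := by norm_num
    nlinarith
  calc 48 * 2 ^ n * ((n : ℝ) + 1) * t ^ (2 * N) ≤ 12 * 4 ^ N * t ^ (2 * N) :=
        mul_le_mul_of_nonneg_right h5 (by positivity)
    _ = 1 / 4 * (48 * (4 * t ^ 2) ^ N) := by
        rw [mul_pow, pow_mul]
        ring
    _ ≤ 1 / 4 * (48 ^ N * (4 * t ^ 2) ^ N) := by
        have h12 : (48 : ℝ) ≤ 48 ^ N := le_self_pow₀ (by norm_num) (by omega)
        have h13 : (0 : ℝ) ≤ (4 * t ^ 2) ^ N := by positivity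
        nlinarith [mul_le_mul_of_nonneg_right h12 h13]
    _ = 1 / 4 * (48 * (4 * t ^ 2)) ^ N := by rw [mul_pow 48]
    _ ≤ 1 / 4 * ((t / 4) ^ 8) ^ N := by
        refine mul_le_mul_of_nonneg_left (pow_le_pow_left₀ (by positivity) h6 _) (by norm_num)
    _ = 1 / 4 * (t / 4) ^ (8 * N) := by rw [pow_mul]

end Pool.Agent.Run7.h363.CV
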