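import Pool.Agent.N686.DI.Fin
import Pool.Agent.Helper240.ZFM.Q2b
import Pool.Agent.TH826.MK.Exact
set_option autoImplicit false

/-!
The branches `G_l` of the inverse of `∏ (x - β_j)` on the disc of radius `c`, where `c` is a lower bound
for the critical values; Koebe's one-quarter theorem gives `|G_l'(w)| (c - |w|) ≤ 4 |G_l(w) - β_j|` for
`j ≠ l`.
-/

namespace Pool.Agent.Run7.h363.CV

open Metric Polynomial Set

open Pool.Agent.N686.DI (exists_branches_at)

open Pool.Agent.TH826.MK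

/-- branches of the inverse function -/
structure Br {m : ℕ} (β : Fin (m + 1) → ℂ) (c : ℝ) (G : Fin (m + 1) → ℂ → ℂ) : Prop where
  inj : Function.Injective β
  pos : 0 < c
  diff : ∀ l, DifferentiableOn ℂ (G l) (ball 0 c)
  zero : ∀ l, G l 0 = β l
  prod : ∀ l, ∀ w ∈ ball (0 : ℂ) c, ∏ j, (G l w - β j) = w

theorem exists_br {m : ℕ} (β : Fin (m + 1) → ℂ) (hβ : Function.Injective β) {c : ℝ} (hc : 0 < c)
    (hcrit : ∀ x, (derivative (∏ i, (X - C (β i)))).eval x = 0 →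
      c ≤ ‖(∏ i, (X - C (β i))).eval x‖) : ∃ G, Br β c G := by
  obtain ⟨μ, hμ, F, φ, H, h0, hp⟩ := exists_branches_at (by omega : 0 < m + 1) β hβ hc hcrit
  have hμc : (μ : ℂ) ≠ 0 := by exact_mod_cast hμ.ne'
  have hμn : (0 : ℝ) < μ ^ (m + 1) := pow_pos hμ _
  have hmem : ∀ w ∈ ball (0 : ℂ) c, w / (μ : ℂ) ^ (m + 1) ∈ ball (0 : ℂ) (c / μ ^ (m + 1)) := by
    intro w hw
    rw [mem_ball_zero_iff] at hw ⊢
    rw [norm_div, norm_pow, Complex.norm_real, Real.norm_of_nonneg hμ.le]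
    exact (div_lt_div_iff_of_pos_right hμn).2 hw
  refine ⟨fun l w => (μ : ℂ) * φ l (w / (μ : ℂ) ^ (m + 1)), hβ, hc, fun l => ?_, fun l => ?_,
    fun l w hw => ?_⟩
  · refine DifferentiableOn.const_mul ?_ _
    refine (H.differentiableOn l).comp (differentiableOn_id.div_const _) fun w hw => hmem w hw
  · simp only [zero_div]
    exact h0 l
  · rw [hp l _ (hmem w hw)]
    field_simp

variable {m : ℕ} {β : Fin (m + 1) → ℂ} {c : ℝ} {G : Fin (m + 1) → ℂ → ℂ} (H : Br β c G)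

include H

theorem Br.ne {l j : Fin (m + 1)} (hlj : j ≠ l) {w : ℂ} (hw : w ∈ ball (0 : ℂ) c) :
    G l w - β j ≠ 0 := by
  intro h
  have h1 := H.prod l w hw
  rw [Finset.prod_eq_zero (Finset.mem_univ j) h] at h1
  rw [← h1, H.zero, sub_eq_zero] at h
  exact hlj (H.inj h).symm

theorem Br.ne' {l j : Fin (m + 1)} {w : ℂ} (hw : w ∈ ball (0 : ℂ) c) (hw0 : w ≠ 0) :
    G l w - β j ≠ 0 := by
  intro h
  have h1 := H.prod l w hw
  rw [Finset.prod_eq_zero (Finset.mem_univ j) h] at h1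
  exact hw0 h1.symm

theorem Br.injOn (l : Fin (m + 1)) : InjOn (G l) (ball 0 c) := by
  intro w hw w' hw' h
  rw [← H.prod l w hw, ← H.prod l w' hw', h]

theorem Br.hasDerivAt (l : Fin (m + 1)) {w : ℂ} (hw : w ∈ ball (0 : ℂ) c) :
    HasDerivAt (G l) (deriv (G l) w) w :=
  ((H.diff l).differentiableAt (isOpen_ball.mem_nhds hw)).hasDerivAt

theorem Br.analyticAt (l : Fin (m + 1)) {w : ℂ} (hw : w ∈ ball (0 : ℂ) c) :
    AnalyticAt ℂ (G l) w :=
  (H.diff l).analyticAt (isOpen_ball.mem_nhds hw)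

/-- Koebe's one-quarter theorem -/
theorem Br.koebe {l j : Fin (m + 1)} (hlj : j ≠ l) {w : ℂ} (hw : w ∈ ball (0 : ℂ) c) :
    ‖deriv (G l) w‖ * (c - ‖w‖) ≤ 4 * ‖G l w - β j‖ := by
  have hw' := mem_ball_zero_iff.1 hw
  set r : ℝ := c - ‖w‖ with hr
  have hr0 : 0 < r := by linarith
  have hmem : ∀ z ∈ ball (0 : ℂ) 1, w + r * z ∈ ball (0 : ℂ) c := by
    intro z hz
    rw [mem_ball_zero_iff] at hz ⊢
    have h1 : ‖w + r * z‖ ≤ ‖w‖ + r * ‖z‖ := by
      refine (norm_add_le _ _).trans ?_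
      rw [norm_mul, Complex.norm_real, Real.norm_of_nonneg hr0.le]
    nlinarith
  have hrc : (r : ℂ) ≠ 0 := by exact_mod_cast hr0.ne'
  have hd : ∀ z ∈ ball (0 : ℂ) 1, HasDerivAt (fun z => G l (w + r * z) - G l w)
      (deriv (G l) (w + r * z) * r) z := by
    intro z hz
    have h1 : HasDerivAt (fun z : ℂ => w + r * z) (r : ℂ) z := by
      have := ((hasDerivAt_id z).const_mul (r : ℂ)).const_add w
      simpa using this
    exact ((H.hasDerivAt l (hmem z hz)).comp z h1).sub_const _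
  have h := ZFM.koebe_quarter (G := fun z => G l (w + r * z) - G l w) (v := β j - G l w)
    (fun z hz => (hd z hz).differentiableAt.differentiableWithinAt)
    (fun x hx y hy hxy => by
      have h1 : G l (w + r * x) = G l (w + r * y) := by
        have h2 : G l (w + r * x) - G l w = G l (w + r * y) - G l w := hxy
        linear_combination h2
      have h3 := H.injOn l (hmem x hx) (hmem y hy) h1
      exact mul_left_cancel₀ hrc (add_left_cancel h3)) (by simp)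
    (fun z hz h1 => by
      refine H.ne hlj (hmem z hz) ?_
      linear_combination h1)
  rw [(hd 0 (mem_ball_self one_pos)).deriv, mul_zero, add_zero, norm_mul, Complex.norm_real,
    Real.norm_of_nonneg hr0.le, norm_sub_rev] at h
  exact h

section small

variable {ρ : ℝ} (hρ : 0 < ρ) (hρc : 32 * ((m : ℝ) + 1) * ρ ≤ c)

include hρ hρc

omit H in
theorem rho_le : 32 * ρ ≤ c := by
  have : (0 : ℝ) ≤ m := Nat.cast_nonneg m
  nlinarith

theorem Br.mem {w : ℂ} (hw : ‖w‖ ≤ ρ) : w ∈ ball (0 : ℂ) c := by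
  rw [mem_ball_zero_iff]
  have := rho_le hρ hρc
  linarith

theorem Br.norm_deriv_le {l j : Fin (m + 1)} (hlj : j ≠ l) {w : ℂ} (hw : ‖w‖ ≤ ρ) :
    ‖deriv (G l) w‖ ≤ 8 / c * ‖G l w - β j‖ := by
  have h1 := H.koebe hlj (H.mem hρ hρc hw)
  have h2 := rho_le hρ hρc
  have hc := H.pos
  have h3 : c / 2 ≤ c - ‖w‖ := by linarith
  have h4 : ‖deriv (G l) w‖ * (c / 2) ≤ 4 * ‖G l w - β j‖ :=
    (mul_le_mul_of_nonneg_left h3 (norm_nonneg _)).trans h1
  rw [div_mul_eq_mul_div, le_div_iff₀ hc]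
  linarith

/-- the branch stays near its centre -/
theorem Br.dist_le {l j : Fin (m + 1)} (hlj : j ≠ l) {w : ℂ} (hw : ‖w‖ ≤ ρ) :
    ‖G l w - β l‖ ≤ 16 * ρ / c * ‖β l - β j‖ := by
  have hc := H.pos
  have h2 := rho_le hρ hρc
  have hcont : ContinuousOn (fun w => ‖G l w - β l‖) (closedBall 0 ρ) := by
    refine ContinuousOn.norm (ContinuousOn.sub ?_ continuousOn_const)
    refine (H.diff l).continuousOn.mono fun w hw => H.mem hρ hρc ?_
    rwa [mem_closedBall_zero_iff] at hw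
  obtain ⟨w1, hw1, hmax⟩ := (isCompact_closedBall (0 : ℂ) ρ).exists_isMaxOn
    ⟨0, mem_closedBall_self hρ.le⟩ hcont
  set M : ℝ := ‖G l w1 - β l‖ with hM
  have hM0 : 0 ≤ M := norm_nonneg _
  have hmax' : ∀ w, ‖w‖ ≤ ρ → ‖G l w - β l‖ ≤ M := fun w hw =>
    hmax (mem_closedBall_zero_iff.2 hw)
  have hder : ∀ w ∈ closedBall (0 : ℂ) ρ, ‖deriv (G l) w‖ ≤ 8 / c * (M + ‖β l - β j‖) := by
    intro w hw
    rw [mem_closedBall_zero_iff] at hw
    refine (H.norm_deriv_le hρ hρc hlj hw).trans (mul_le_mul_of_nonneg_left ?_ (by positivity))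
    have : G l w - β j = (G l w - β l) + (β l - β j) := by ring
    rw [this]
    exact (norm_add_le _ _).trans (add_le_add (hmax' w hw) le_rfl)
  have h3 := Convex.norm_image_sub_le_of_norm_hasDerivWithin_le (f := G l) (f' := deriv (G l))
    (s := closedBall 0 ρ) (fun w hw => (H.hasDerivAt l (H.mem hρ hρc
      (mem_closedBall_zero_iff.1 hw))).hasDerivWithinAt) hder (convex_closedBall _ _)
    (mem_closedBall_self hρ.le) hw1
  rw [H.zero, sub_zero] at h3
  have hw1' := mem_closedBall_zero_iff.1 hw1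
  have h4 : M ≤ 8 / c * (M + ‖β l - β j‖) * ρ :=
    h3.trans (mul_le_mul_of_nonneg_left hw1' (by positivity))
  have h5 : 8 / c * (M + ‖β l - β j‖) * ρ = 8 * ρ / c * M + 8 * ρ / c * ‖β l - β j‖ := by ring
  have h6 : 8 * ρ / c ≤ 1 / 4 := by
    rw [div_le_div_iff₀ hc (by norm_num)]
    linarith
  have h7 : 8 * ρ / c * M ≤ 1 / 4 * M := mul_le_mul_of_nonneg_right h6 hM0
  have h8 : 16 * ρ / c * ‖β l - β j‖ = 2 * (8 * ρ / c * ‖β l - β j‖) := by ring
  have h9 : 0 ≤ 8 * ρ / c * ‖β l - β j‖ := by positivity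
  refine (hmax' w hw).trans ?_
  rw [h8]
  linarith

/-- `G_l(w) - β_j` in terms of `β_l - β_j` -/
theorem Br.norm_Z_le {l j : Fin (m + 1)} (hlj : j ≠ l) {w : ℂ} (hw : ‖w‖ ≤ ρ) :
    ‖(G l w - β l) / (β l - β j)‖ ≤ 16 * ρ / c := by
  have hne : β l - β j ≠ 0 := sub_ne_zero.2 fun h => hlj (H.inj h).symm
  rw [norm_div, div_le_iff₀ (norm_pos_iff.2 hne)]
  exact H.dist_le hρ hρc hlj hw

omit hρ in
theorem Br.eps_le : 16 * ρ / c ≤ 1 / (2 * ((m : ℝ) + 1)) := by
  have hc := H.pos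
  rw [div_le_div_iff₀ hc (by positivity)]
  linarith

omit hρ in
theorem Br.eps_le_half : 16 * ρ / c ≤ 1 / 2 := by
  refine (H.eps_le hρc).trans ?_
  have : (0 : ℝ) ≤ m := Nat.cast_nonneg m
  exact one_div_le_one_div_of_le (by norm_num) (by linarith)

end small

end Pool.Agent.Run7.h363.CV
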