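import Pool.Agent.Run7.h363.CV.Branch
set_option autoImplicit false

/-!
The functions `G_l(w) - β_j` on the circle `|w| = ρ`: winding numbers and logarithmic derivatives.
-/

namespace Pool.Agent.Run7.h363.CV

open Metric Set MeasureTheory

open Pool.Agent.TH826.MK

section one

variable {F F' : ℝ → ℂ} {v v' : ℝ}

theorem one_const {c : ℂ} (hc : c ≠ 0) : One (fun _ => c) 0 where
  smooth := contDiff_const
  ne_zero _ := hc
  per _ := rfl
  wind := by simp

theorem One.mul (h : One F v) (h' : One F' v') : One (fun s => F s * F' s) (v + v') := by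
  have h1 := h.div ((one_const one_ne_zero).div h')
  have e : (fun s => F s / ((1 : ℂ) / F' s)) = fun s => F s * F' s := by
    funext s
    rw [one_div, div_inv_eq_mul]
  rw [e] at h1
  have e2 : v - (0 - v') = v + v' := by ring
  rwa [e2] at h1

theorem one_prod {ι : Type*} (s : Finset ι) {f : ι → ℝ → ℂ} {w : ι → ℝ}
    (h : ∀ i ∈ s, One (f i) (w i)) : One (fun t => ∏ i ∈ s, f i t) (∑ i ∈ s, w i) := by
  classical
  induction s using Finset.induction_on with
  | empty =>
    simp only [Finset.prod_empty, Finset.sum_empty]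
    exact one_const one_ne_zero
  | insert i s hi ih =>
    simp only [Finset.prod_insert hi, Finset.sum_insert hi]
    exact One.mul (h i (Finset.mem_insert_self i s))
      (ih fun j hj => h j (Finset.mem_insert_of_mem hj))

/-- functions with a logarithm have winding number zero -/
theorem one_of_slit (hF : ContDiff ℝ 2 F) (hper : ∀ s, F (s + 1) = F s)
    (hs : ∀ s, F s ∈ Complex.slitPlane) : One F 0 where
  smooth := hF
  ne_zero s := Complex.slitPlane_ne_zero (hs s)
  per := hper
  wind := by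
    have hd : ∀ s, HasDerivAt F (deriv F s) s := fun s =>
      (hF.differentiable (by norm_num) s).hasDerivAt
    have h1 : ∀ s ∈ uIcc (0 : ℝ) 1, HasDerivAt (fun s => Complex.log (F s)) (deriv F s / F s) s :=
      fun s _ => (hd s).clog_real (hs s)
    have hc : Continuous fun s => deriv F s / F s :=
      (hF.continuous_deriv (by norm_num)).div hF.continuous fun s =>
        Complex.slitPlane_ne_zero (hs s)
    have h2 := intervalIntegral.integral_eq_sub_of_hasDerivAt h1 (hc.intervalIntegrable 0 1)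
    rw [integral_Icc_eq_integral_Ioc, ← intervalIntegral.integral_of_le zero_le_one, h2]
    have h3 : F 1 = F 0 := by
      have := hper 0
      rwa [zero_add] at this
    rw [h3, sub_self]
    simp

end one

variable {m : ℕ} {β : Fin (m + 1) → ℂ} {c : ℝ} {G : Fin (m + 1) → ℂ → ℂ} (H : Br β c G)
  {ρ : ℝ} (hρ : 0 < ρ) (hρc : 32 * ((m : ℝ) + 1) * ρ ≤ c)

/-- `G_l(w) - β_j` on the circle -/
noncomputable def gb (β : Fin (m + 1) → ℂ) (G : Fin (m + 1) → ℂ → ℂ) (ρ : ℝ) (l j : Fin (m + 1))
    (s : ℝ) : ℂ := G l (circ ρ s) - β j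

include H hρ hρc

theorem circ_mem (s : ℝ) : circ ρ s ∈ ball (0 : ℂ) c :=
  H.mem hρ hρc (norm_circ hρ.le s).le

theorem contDiff_G (l : Fin (m + 1)) : ContDiff ℝ 2 fun s => G l (circ ρ s) := by
  rw [contDiff_iff_contDiffAt]
  intro s
  exact ((H.analyticAt l (circ_mem H hρ hρc s)).contDiffAt.restrict_scalars ℝ).comp s
    (contDiff_circ ρ).contDiffAt

theorem contDiff_gb (l j : Fin (m + 1)) : ContDiff ℝ 2 (gb β G ρ l j) :=
  (contDiff_G H hρ hρc l).sub contDiff_const

theorem gb_add_one (l j : Fin (m + 1)) (s : ℝ) : gb β G ρ l j (s + 1) = gb β G ρ l j s := by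
  unfold gb
  rw [circ_add_one]

theorem deriv_gb (l j : Fin (m + 1)) (s : ℝ) : deriv (gb β G ρ l j) s =
    deriv (G l) (circ ρ s) * (2 * Real.pi * Complex.I * circ ρ s) := by
  have h1 : HasDerivAt (circ ρ) (2 * Real.pi * Complex.I * circ ρ s) s := hasDerivAt_circ ρ s
  have h2 := H.hasDerivAt l (circ_mem H hρ hρc s)
  exact ((h2.comp_of_eq s h1 rfl).sub_const (β j)).deriv

theorem gb_ne_zero (l j : Fin (m + 1)) (s : ℝ) : gb β G ρ l j s ≠ 0 := by
  refine H.ne' (circ_mem H hρ hρc s) ?_
  rw [← norm_ne_zero_iff, norm_circ hρ.le]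
  exact hρ.ne'

theorem gb_eq {l j : Fin (m + 1)} (hlj : j ≠ l) (s : ℝ) : gb β G ρ l j s =
    (β l - β j) * (1 + (G l (circ ρ s) - β l) / (β l - β j)) := by
  have hne : β l - β j ≠ 0 := sub_ne_zero.2 fun h => hlj (H.inj h).symm
  unfold gb
  field_simp
  ring

theorem slit_Z {l j : Fin (m + 1)} (hlj : j ≠ l) {w : ℂ} (hw : ‖w‖ ≤ ρ) :
    1 + (G l w - β l) / (β l - β j) ∈ Complex.slitPlane := by
  refine Complex.mem_slitPlane_of_norm_lt_one ?_
  have h1 := H.norm_Z_le hρ hρc hlj hw
  have h2 := H.eps_le_half hρc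
  linarith

theorem log_Z_le {l j : Fin (m + 1)} (hlj : j ≠ l) {w : ℂ} (hw : ‖w‖ ≤ ρ) :
    ‖Complex.log (1 + (G l w - β l) / (β l - β j))‖ ≤ 24 * ρ / c := by
  have h1 := H.norm_Z_le hρ hρc hlj hw
  have h2 := H.eps_le_half hρc
  have h3 := Complex.norm_log_one_add_half_le_self (z := (G l w - β l) / (β l - β j)) (by linarith)
  have e : 24 * ρ / c = 3 / 2 * (16 * ρ / c) := by ring
  rw [e]
  exact h3.trans (mul_le_mul_of_nonneg_left h1 (by norm_num))

theorem one_gb_ne {l j : Fin (m + 1)} (hlj : j ≠ l) : One (gb β G ρ l j) 0 := by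
  have hne : β l - β j ≠ 0 := sub_ne_zero.2 fun h => hlj (H.inj h).symm
  have h1 : One (fun s => 1 + (G l (circ ρ s) - β l) / (β l - β j)) 0 := by
    refine one_of_slit ?_ (fun s => by rw [circ_add_one])
      (fun s => slit_Z H hρ hρc hlj (norm_circ hρ.le s).le)
    exact contDiff_const.add (((contDiff_G H hρ hρc l).sub contDiff_const).div_const _)
  have h2 := One.mul (one_const hne) h1
  rw [add_zero] at h2
  have e : gb β G ρ l j = fun s => (β l - β j) * (1 + (G l (circ ρ s) - β l) / (β l - β j)) :=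
    funext fun s => gb_eq H hρ hρc hlj s
  rw [e]
  exact h2

theorem one_circ' : One (circ ρ) 1 := by
  have h := one_lin (R := ρ) hρ (b := 0) (by rw [norm_zero]; exact hρ.ne)
  have e1 : (fun s => circ ρ s - 0) = circ ρ := by
    funext s
    rw [sub_zero]
  have e2 : wd ρ 0 = 1 := by
    unfold wd
    rw [norm_zero, if_pos hρ]
  rwa [e1, e2] at h

theorem prod_gb (l : Fin (m + 1)) (s : ℝ) : ∏ j, gb β G ρ l j s = circ ρ s :=
  H.prod l _ (circ_mem H hρ hρc s)

theorem one_gb (l j : Fin (m + 1)) : One (gb β G ρ l j) (if j = l then 1 else 0) := by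
  classical
  by_cases h : j = l
  · subst h
    rw [if_pos rfl]
    have h1 : One (fun s => ∏ i ∈ Finset.univ.erase j, gb β G ρ j i s)
        (∑ i ∈ Finset.univ.erase j, 0) :=
      one_prod _ fun i hi => one_gb_ne H hρ hρc (Finset.ne_of_mem_erase hi)
    rw [Finset.sum_const_zero] at h1
    have h2 := (one_circ' H hρ hρc).div h1
    rw [sub_zero] at h2
    have e : (fun s => circ ρ s / ∏ i ∈ Finset.univ.erase j, gb β G ρ j i s) = gb β G ρ j j := by
      funext s
      rw [div_eq_iff (h1.ne_zero s), Finset.mul_prod_erase Finset.univ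
        (fun i => gb β G ρ j i s) (Finset.mem_univ j)]
      exact (prod_gb H hρ hρc j s).symm
    rwa [e] at h2
  · rw [if_neg h]
    exact one_gb_ne H hρ hρc h

theorem ld_gb_ne {l j : Fin (m + 1)} (hlj : j ≠ l) (s : ℝ) :
    ‖deriv (gb β G ρ l j) s / gb β G ρ l j s‖ ≤ 2 * Real.pi / (4 * ((m : ℝ) + 1)) := by
  have hpi := Real.pi_pos
  have hn := norm_circ hρ.le s
  rw [deriv_gb H hρ hρc, norm_div, norm_mul, norm_mul, norm_mul, norm_mul, Complex.norm_I,
    Complex.norm_real, Complex.norm_ofNat, Real.norm_of_nonneg hpi.le, mul_one, hn,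
    div_le_iff₀ (norm_pos_iff.2 (gb_ne_zero H hρ hρc l j s))]
  have h1 := H.norm_deriv_le hρ hρc hlj hn.le
  have hc := H.pos
  have h2 : 8 / c * ρ ≤ 1 / (4 * ((m : ℝ) + 1)) := by
    rw [div_mul_eq_mul_div, div_le_div_iff₀ hc (by positivity)]
    linarith
  have h3 : 0 ≤ ‖gb β G ρ l j s‖ := norm_nonneg _
  calc ‖deriv (G l) (circ ρ s)‖ * (2 * Real.pi * ρ) ≤
        (8 / c * ‖G l (circ ρ s) - β j‖) * (2 * Real.pi * ρ) :=
        mul_le_mul_of_nonneg_right h1 (by positivity)
    _ = 2 * Real.pi * (8 / c * ρ) * ‖gb β G ρ l j s‖ := by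
        unfold gb
        ring
    _ ≤ 2 * Real.pi * (1 / (4 * ((m : ℝ) + 1))) * ‖gb β G ρ l j s‖ :=
        mul_le_mul_of_nonneg_right (mul_le_mul_of_nonneg_left h2 (by positivity)) h3
    _ = 2 * Real.pi / (4 * ((m : ℝ) + 1)) * ‖gb β G ρ l j s‖ := by ring

/-- the logarithmic derivatives -/
theorem ld_gb (l j : Fin (m + 1)) (s : ℝ) :
    ‖deriv (gb β G ρ l j) s / gb β G ρ l j s‖ ≤ 4 * Real.pi := by
  classical
  have hpi := Real.pi_pos
  have hm : (0 : ℝ) ≤ m := Nat.cast_nonneg m
  by_cases h : j = l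
  · subst h
    -- the logarithmic derivative of the product
    have h1 : ∑ i, deriv (gb β G ρ j i) s / gb β G ρ j i s = 2 * Real.pi * Complex.I := by
      have e : (fun s => ∏ i, gb β G ρ j i s) = circ ρ := funext fun s => prod_gb H hρ hρc j s
      have hd : ∀ i ∈ (Finset.univ : Finset (Fin (m + 1))),
          DifferentiableAt ℝ (gb β G ρ j i) s := fun i _ =>
        (contDiff_gb H hρ hρc j i).differentiable (by norm_num) s
      have h2 := logDeriv_prod (s := Finset.univ) (f := fun i => gb β G ρ j i) (x := s)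
        (fun i _ => gb_ne_zero H hρ hρc j i s) hd
      have h3 : logDeriv (circ ρ) s = 2 * Real.pi * Complex.I := by
        unfold logDeriv
        rw [Pi.div_apply, (hasDerivAt_circ ρ s).deriv, mul_div_assoc, div_self, mul_one]
        exact (one_circ' H hρ hρc).ne_zero s
      rw [e, h3] at h2
      exact h2.symm
    rw [← Finset.add_sum_erase _ _ (Finset.mem_univ j)] at h1
    have h2 : deriv (gb β G ρ j j) s / gb β G ρ j j s = 2 * Real.pi * Complex.I -
        ∑ i ∈ Finset.univ.erase j, deriv (gb β G ρ j i) s / gb β G ρ j i s := by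
      linear_combination h1
    rw [h2]
    refine (norm_sub_le _ _).trans ?_
    have h3 : ‖(2 * Real.pi * Complex.I : ℂ)‖ = 2 * Real.pi := by
      rw [norm_mul, norm_mul, Complex.norm_I, Complex.norm_real, Complex.norm_ofNat,
        Real.norm_of_nonneg hpi.le, mul_one]
    have h4 : ‖∑ i ∈ Finset.univ.erase j, deriv (gb β G ρ j i) s / gb β G ρ j i s‖ ≤
        2 * Real.pi := by
      refine (norm_sum_le _ _).trans ?_
      calc ∑ i ∈ Finset.univ.erase j, ‖deriv (gb β G ρ j i) s / gb β G ρ j i s‖ ≤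
          ∑ _i ∈ Finset.univ.erase j, 2 * Real.pi / (4 * ((m : ℝ) + 1)) :=
            Finset.sum_le_sum fun i hi => ld_gb_ne H hρ hρc (Finset.ne_of_mem_erase hi) s
        _ = m * (2 * Real.pi / (4 * ((m : ℝ) + 1))) := by
            rw [Finset.sum_const, Finset.card_erase_of_mem (Finset.mem_univ j), Finset.card_univ,
              Fintype.card_fin, nsmul_eq_mul, Nat.add_sub_cancel]
        _ ≤ 2 * Real.pi := by
            rw [← mul_div_assoc, div_le_iff₀ (by positivity)]
            nlinarith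
    rw [h3]
    linarith
  · refine (ld_gb_ne H hρ hρc h s).trans ?_
    rw [div_le_iff₀ (by positivity)]
    nlinarith

end Pool.Agent.Run7.h363.CV
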