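import Pool.Agent.N686.DI.Fin
import Pool.Agent.Run7.h363.BD.Main
set_option autoImplicit false

/-!
The Laplacian of the complete graph with the weights `log |β_i - β_j|` is at least `log c` on the
functions with sum zero, if the critical values of `∏ (x - β_i)` have absolute value at least `c`.
-/

namespace Pool.Agent.Run7.h363.CV

open Metric Polynomial

open Pool.Agent.Y775.CC

open Pool.Agent.N686.DI (qf qf_ineq exists_logs exists_branches_at)

open Pool.Agent.Run7.h363.BD (LL)

theorem energy {m : ℕ} (β : Fin (m + 1) → ℂ) (hβ : Function.Injective β) {c : ℝ} (hc : 0 < c)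
    (hcrit : ∀ x, (derivative (∏ i, (X - C (β i)))).eval x = 0 →
      c ≤ ‖(∏ i, (X - C (β i))).eval x‖) (v : Fin (m + 1) → ℝ) (hv : ∑ x, v x = 0) :
    Real.log c * ∑ x, v x ^ 2 ≤ ∑ x, ∑ y, v x * (LL β x y * v y) := by
  classical
  obtain ⟨μ, hμ, G, φ, H, h0, -⟩ := exists_branches_at (by omega : 0 < m + 1) β hβ hc hcrit
  have hμn : 0 < μ ^ (m + 1) := pow_pos hμ _
  have hV0 : (0 : ℂ) ∈ ball (0 : ℂ) (c / μ ^ (m + 1)) := mem_ball_self (by positivity)
  have hφ0 : ∀ i, φ i 0 = β i / μ := by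
    intro i
    have hμc : (μ : ℂ) ≠ 0 := by exact_mod_cast hμ.ne'
    rw [eq_div_iff hμc, mul_comm]
    exact h0 i
  -- the off-diagonal entries
  have hoff : ∀ k i, k ≠ i → Real.log ‖psi φ k i 0 0‖ = Real.log ‖β k - β i‖ - Real.log μ := by
    intro k i hki
    have hne : β k - β i ≠ 0 := sub_ne_zero.2 fun h => hki (hβ h)
    rw [psi_ne hki, hφ0, hφ0, ← sub_div, norm_div, Complex.norm_real, Real.norm_of_nonneg hμ.le,
      Real.log_div (norm_ne_zero_iff.2 hne) hμ.ne']
  have hdiag : ∀ i, Real.log ‖psi φ i i 0 0‖ = m * Real.log μ -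
      ∑ k ∈ Finset.univ.erase i, Real.log ‖β k - β i‖ := by
    intro i
    have h1 := prod_psi H i hV0 hV0
    have h2 : ∑ k, Real.log ‖psi φ k i 0 0‖ = 0 := by
      rw [← Real.log_prod (fun k _ => norm_ne_zero_iff.2 (psi_ne_zero H k i hV0 hV0)), h1,
        Real.log_one]
    rw [← Finset.add_sum_erase _ _ (Finset.mem_univ i)] at h2
    have h3 : ∑ k ∈ Finset.univ.erase i, Real.log ‖psi φ k i 0 0‖ =
        ∑ k ∈ Finset.univ.erase i, (Real.log ‖β k - β i‖ - Real.log μ) :=
      Finset.sum_congr rfl fun k hk => hoff k i (Finset.ne_of_mem_erase hk)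
    rw [h3, Finset.sum_sub_distrib, Finset.sum_const, Finset.card_erase_of_mem (Finset.mem_univ i),
      Finset.card_univ, Fintype.card_fin, nsmul_eq_mul, Nat.add_sub_cancel] at h2
    linarith
  set Q : ℝ := ∑ x, ∑ y, v x * (LL β x y * v y) with hQ
  have hent : ∀ R : ℝ, 0 < R → ∀ x y, v x * v y * qf φ R x y = v x * (LL β x y * v y) +
      Real.log μ * (v x * v y) - if x = y then (((m : ℝ) + 1) * Real.log μ + Real.log R) * v x ^ 2
        else 0 := by
    intro R hR x y
    unfold qf LL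
    by_cases hxy : x = y
    · subst hxy
      rw [if_pos rfl, if_pos rfl, if_pos rfl, hdiag, sub_self, norm_zero, Real.log_zero,
        ← Finset.add_sum_erase _ (fun i => Real.log ‖β i - β x‖) (Finset.mem_univ x), sub_self,
        norm_zero, Real.log_zero]
      ring
    · rw [if_neg hxy, if_neg hxy, if_neg hxy, hoff x y hxy, norm_sub_rev (β y)]
      ring
  have hlow : ∀ R : ℝ, 0 < R → R < c / μ ^ (m + 1) →
      (((m : ℝ) + 1) * Real.log μ + Real.log R) * ∑ x, v x ^ 2 ≤ Q := by
    intro R hR hRc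
    have hV : ∀ z : ℂ, ‖z‖ ≤ R → z ∈ ball (0 : ℂ) (c / μ ^ (m + 1)) := fun z hz => by
      rw [mem_ball_zero_iff]
      exact lt_of_le_of_lt hz hRc
    obtain ⟨aa, haad, haa⟩ := exists_logs H hV0
    have h1 := qf_ineq H hR hV haad haa v hv 0
    have h2 : ∀ f : Fin (m + 1) → ℕ → ℝ, ∑ i, ∑ l ∈ Finset.Icc 1 0, f i l = 0 := by
      intro f
      simp
    rw [h2 fun i l => (l : ℝ) / 2 *
      ‖∑ j, (v j : ℂ) * Pool.Agent.N686.DI.fc R (aa i j) l‖ ^ 2] at h1
    simp only [hent R hR, Finset.sum_sub_distrib, Finset.sum_add_distrib] at h1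
    have h3 : ∑ x, ∑ y, Real.log μ * (v x * v y) = 0 := by
      have : ∀ x, ∑ y, Real.log μ * (v x * v y) = 0 := by
        intro x
        rw [← Finset.mul_sum, ← Finset.mul_sum, hv, mul_zero, mul_zero]
      simp only [this, Finset.sum_const_zero]
    have h4 : ∑ x, ∑ y, (if x = y then (((m : ℝ) + 1) * Real.log μ + Real.log R) * v x ^ 2
        else 0) = (((m : ℝ) + 1) * Real.log μ + Real.log R) * ∑ x, v x ^ 2 := by
      rw [Finset.mul_sum]
      refine Finset.sum_congr rfl fun x _ => ?_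
      rw [Finset.sum_ite_eq Finset.univ x, if_pos (Finset.mem_univ x)]
    rw [h3, h4] at h1
    linarith
  rcases (Finset.sum_nonneg fun x (_ : x ∈ Finset.univ) => sq_nonneg (v x)).eq_or_lt with hS | hS
  · have hv0 : ∀ x, v x = 0 := by
      intro x
      have := (Finset.sum_eq_zero_iff_of_nonneg fun x (_ : x ∈ Finset.univ) =>
        sq_nonneg (v x)).1 hS.symm x (Finset.mem_univ x)
      exact pow_eq_zero_iff two_ne_zero |>.1 this
    rw [hQ, ← hS]
    simp [hv0]
  · rw [← le_div_iff₀ hS, Real.log_le_iff_le_exp hc]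
    have h5 : c / μ ^ (m + 1) ≤ Real.exp (Q / ∑ x, v x ^ 2) / μ ^ (m + 1) := by
      refine le_of_forall_lt_imp_le_of_dense fun R hR => ?_
      rcases le_or_gt R 0 with hR0 | hR0
      · exact hR0.trans (by positivity)
      · have h6 := hlow R hR0 hR
        rw [← le_div_iff₀ hS] at h6
        rw [le_div_iff₀ hμn, ← Real.log_le_iff_le_exp (mul_pos hR0 hμn), Real.log_mul hR0.ne' hμn.ne',
          Real.log_pow]
        push_cast
        linarith
    rwa [div_le_div_iff_of_pos_right hμn] at h5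

end Pool.Agent.Run7.h363.CV
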