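import Pool.Agent.Run7.h363.CV.Circ
import Pool.Agent.Run7.h363.BD.Main
set_option autoImplicit false

/-!
The regulators of `G_l(w) - β_j`, where `w` is small, and functions of one variable.
-/

namespace Pool.Agent.Run7.h363.CV

open Metric Set MeasureTheory

open Pool.Agent.TH826.MK

open Pool.Agent.TH826.UM (abs_pairing_log_le)

open Pool.Agent.Run7.h363.BD (LL)

variable {m : ℕ} {β : Fin (m + 1) → ℂ} {c : ℝ} {G : Fin (m + 1) → ℂ → ℂ} (H : Br β c G)
  {ρ : ℝ} (hρ : 0 < ρ) (hρc : 32 * ((m : ℝ) + 1) * ρ ≤ c) {D : ℕ} (hD : 0 < D)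
  {V : Fin D → ℝ → ℂ} {v : Fin D → ℝ} (hV : ∀ k, One (V k) (v k)) {C : ℝ}
  (hVC : ∀ k s, ‖deriv (V k) s / V k s‖ ≤ C) {w : (Fin D → ℝ) → ℂ} (gw : Good w) (pw : Per w)
  (hw : ∀ θ, ‖w θ‖ ≤ ρ)

include H hρ hρc gw hw

theorem contDiff_Gw (l : Fin (m + 1)) : ContDiff ℝ 2 fun θ => G l (w θ) := by
  rw [contDiff_iff_contDiffAt]
  intro θ
  exact ((H.analyticAt l (H.mem hρ hρc (hw θ))).contDiffAt.restrict_scalars ℝ).comp θ
    gw.smooth.contDiffAt

theorem good_Gw (l j : Fin (m + 1)) : Good fun θ => G l (w θ) - β j :=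
  ⟨(contDiff_Gw H hρ hρc gw hw l).sub contDiff_const,
    fun θ => H.ne' (H.mem hρ hρc (hw θ)) (gw.ne_zero θ)⟩

include hD hV hVC pw

/-- the case `j ≠ l` -/
theorem near_const {l j : Fin (m + 1)} (hlj : j ≠ l) :
    |pairing (Fin.cons (fun θ => G l (w θ) - β j) (vf V)) -
      (2 * Real.pi) ^ D * Real.log ‖β l - β j‖ * ∏ k, v k| ≤ 24 * ρ / c * C ^ D := by
  have hne : β l - β j ≠ 0 := sub_ne_zero.2 fun h => hlj (H.inj h).symm
  have gV : ∀ k, Good (vf V k) := fun k => (hV k).good k
  have hZc : ContDiff ℝ 2 fun θ => 1 + (G l (w θ) - β l) / (β l - β j) :=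
    contDiff_const.add (((contDiff_Gw H hρ hρc gw hw l).sub contDiff_const).div_const _)
  have hsl : ∀ θ, 1 + (G l (w θ) - β l) / (β l - β j) ∈ Complex.slitPlane := fun θ =>
    slit_Z H hρ hρc hlj (hw θ)
  have gZ : Good fun θ => 1 + (G l (w θ) - β l) / (β l - β j) :=
    ⟨hZc, fun θ => Complex.slitPlane_ne_zero (hsl θ)⟩
  have pZ : Per fun θ => 1 + (G l (w θ) - β l) / (β l - β j) := by
    intro θ i
    simp only
    rw [pw θ i]
  have e : (fun θ => G l (w θ) - β j) = fun θ =>
      (β l - β j) * (1 + (G l (w θ) - β l) / (β l - β j)) := by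
    funext θ
    field_simp
    ring
  rw [e, pairing_cons_mul (good_const hne) gZ gV, pairing_const _ _ _ hV, add_sub_cancel_left]
  exact abs_pairing_log_le hD hZc pZ hsl hV (fun θ => log_Z_le H hρ hρc hlj (hw θ)) hVC

theorem near_all (l j : Fin (m + 1)) :
    |pairing (Fin.cons (fun θ => G l (w θ) - β j) (vf V)) -
      ((if j = l then pairing (Fin.cons w (vf V)) else 0) -
        (2 * Real.pi) ^ D * LL β j l * ∏ k, v k)| ≤ ((m : ℝ) + 1) * (24 * ρ / c * C ^ D) := by
  classical
  have hc := H.pos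
  have hC : 0 ≤ C := (norm_nonneg _).trans (hVC ⟨0, hD⟩ 0)
  have hE : 0 ≤ 24 * ρ / c * C ^ D := by positivity
  have hm : (0 : ℝ) ≤ m := Nat.cast_nonneg m
  by_cases h : j = l
  · subst h
    rw [if_pos rfl]
    have hsum : pairing (Fin.cons w (vf V)) =
        ∑ i, pairing (Fin.cons (fun θ => G j (w θ) - β i) (vf V)) := by
      rw [← pairing_prod Finset.univ (fun i => good_Gw H hρ hρc gw hw j i) hV]
      congr 2
      funext θ
      exact (H.prod j _ (H.mem hρ hρc (hw θ))).symm
    rw [hsum, ← Finset.add_sum_erase _ _ (Finset.mem_univ j)]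
    have hL : LL β j j = ∑ i ∈ Finset.univ.erase j, Real.log ‖β j - β i‖ := by
      unfold LL
      rw [if_pos rfl, sub_self, norm_zero, Real.log_zero, sub_zero,
        ← Finset.add_sum_erase _ (fun i => Real.log ‖β i - β j‖) (Finset.mem_univ j), sub_self,
        norm_zero, Real.log_zero, zero_add]
      exact Finset.sum_congr rfl fun i _ => by rw [norm_sub_rev]
    have h1 : pairing (Fin.cons (fun θ => G j (w θ) - β j) (vf V)) -
        (pairing (Fin.cons (fun θ => G j (w θ) - β j) (vf V)) +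
          ∑ i ∈ Finset.univ.erase j, pairing (Fin.cons (fun θ => G j (w θ) - β i) (vf V)) -
          (2 * Real.pi) ^ D * LL β j j * ∏ k, v k) =
        -∑ i ∈ Finset.univ.erase j, (pairing (Fin.cons (fun θ => G j (w θ) - β i) (vf V)) -
          (2 * Real.pi) ^ D * Real.log ‖β j - β i‖ * ∏ k, v k) := by
      rw [hL, Finset.sum_sub_distrib, ← Finset.sum_mul, ← Finset.mul_sum]
      ring
    rw [h1, abs_neg]
    refine (Finset.abs_sum_le_sum_abs _ _).trans ?_
    calc ∑ i ∈ Finset.univ.erase j, |pairing (Fin.cons (fun θ => G j (w θ) - β i) (vf V)) -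
          (2 * Real.pi) ^ D * Real.log ‖β j - β i‖ * ∏ k, v k| ≤
          ∑ _i ∈ Finset.univ.erase j, 24 * ρ / c * C ^ D := Finset.sum_le_sum fun i hi =>
            near_const H hρ hρc hD hV hVC gw pw hw (Finset.ne_of_mem_erase hi)
      _ = m * (24 * ρ / c * C ^ D) := by
          rw [Finset.sum_const, Finset.card_erase_of_mem (Finset.mem_univ j), Finset.card_univ,
            Fintype.card_fin, nsmul_eq_mul, Nat.add_sub_cancel]
      _ ≤ _ := mul_le_mul_of_nonneg_right (by linarith) hE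
  · rw [if_neg h]
    have hL : LL β j l = -Real.log ‖β l - β j‖ := by
      unfold LL
      rw [if_neg h, zero_sub]
    have h1 := near_const H hρ hρc hD hV hVC gw pw hw h
    have e : (0 : ℝ) - (2 * Real.pi) ^ D * LL β j l * ∏ k, v k =
        (2 * Real.pi) ^ D * Real.log ‖β l - β j‖ * ∏ k, v k := by
      rw [hL]
      ring
    rw [e]
    refine h1.trans ?_
    nlinarith

omit gw pw hw in
/-- the regulators with the coordinate on the circle -/
theorem near_slot (k : Fin D) (l j : Fin (m + 1)) (hk : V k = gb β G ρ l j)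
    (hC : 2 * Real.pi ≤ C) :
    |pairing (Fin.cons (fun θ => circ ρ (θ k)) (vf V)) -
      (2 * Real.pi) ^ D * ((∏ i ∈ Finset.univ.erase k, v i) * LL β j l)| ≤
        ((m : ℝ) + 1) * (24 * ρ / c * C ^ D) := by
  classical
  have oc : One (circ ρ) 1 := one_circ' H hρ hρc
  have hVk : V = Function.update V k (gb β G ρ l j) := by
    rw [← hk, Function.update_eq_self]
  have h1 : pairing (Fin.cons (fun θ => circ ρ (θ k)) (vf V)) =
      -pairing (Fin.cons (fun θ => G l (circ ρ (θ k)) - β j)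
        (vf (Function.update V k (circ ρ)))) := by
    have h2 := pairing_swap (f := fun θ : Fin D → ℝ => circ ρ (θ k))
      (h := fun θ : Fin D → ℝ => gb β G ρ l j (θ k)) (g := vf V) k
    rw [← vf_update, ← vf_update, ← hVk] at h2
    exact h2
  have hV' := one_update hV oc k
  have hVC' : ∀ i s, ‖deriv (Function.update V k (circ ρ) i) s /
      Function.update V k (circ ρ) i s‖ ≤ C := by
    intro i s
    by_cases hi : i = k
    · subst hi
      rw [Function.update_self, (hasDerivAt_circ ρ s).deriv, mul_div_assoc, div_self (oc.ne_zero s),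
        mul_one, norm_mul, norm_mul, Complex.norm_I, Complex.norm_real, Complex.norm_ofNat,
        Real.norm_of_nonneg Real.pi_pos.le, mul_one]
      exact hC
    · rw [Function.update_of_ne hi]
      exact hVC i s
  have h3 := near_all H hρ hρc hD hV' hVC' (w := fun θ => circ ρ (θ k)) (oc.good k)
    (oc.periodic k) (fun θ => (norm_circ hρ.le _).le) l j
  have h4 : pairing (Fin.cons (fun θ : Fin D → ℝ => circ ρ (θ k))
      (vf (Function.update V k (circ ρ)))) = 0 := by
    rw [vf_update]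
    exact pairing_self k
  rw [h4, ite_self, prod_update, one_mul] at h3
  rw [h1, ← abs_neg]
  refine le_of_eq_of_le ?_ h3
  congr 1
  ring

end Pool.Agent.Run7.h363.CV
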