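import Pool.Agent.TH826.UM.FB
import Pool.Agent.Run7.h363.CV.Slot
import Pool.Agent.Run7.h363.CV.Energy
set_option autoImplicit false

/-!
The regulator matrix of the fibrations `z + y_1 + ... + y_q + 1/(z ∏ y_i ^ (w_i + 1)) = Φ(x)`,
`Φ = λ ∏_k ∏_i (x_k - β_{k,i})`, on tori on which the absolute values of the factors of `Φ` are constant.
-/

namespace Pool.Agent.Run7.h363.CV

open MeasureTheory Set

open Pool.Agent.TH826.MK

open Pool.Agent.TH690.SF (he good_he_comp)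

open Pool.Agent.TH826.UM (vv prod_erase_castAdd prod_append_one abs_pairing_log_le norm_he_sub_one
  yT norm_yT good_yT per_yT norm_sum_yT one_circ norm_ld_circ)

open Pool.Agent.Run7.h363.BD (LL)

variable {n q : ℕ} {m : Fin n → ℕ} {β : ∀ k, Fin (m k + 1) → ℂ} {c ρ : Fin n → ℝ}
  {G : ∀ k, Fin (m k + 1) → ℂ → ℂ} {lam : ℂ} {w : Fin q → ℕ}

/-- the entries in the coordinate directions -/
noncomputable def VF (q : ℕ) (β : ∀ k, Fin (m k + 1) → ℂ) (G : ∀ k, Fin (m k + 1) → ℂ → ℂ)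
    (ρ : Fin n → ℝ) (t p : ∀ k, Fin (m k + 1)) : Fin (n + q) → ℝ → ℂ :=
  Fin.append (fun k => gb (β k) (G k) (ρ k) (t k) (p k)) fun _ => circ 1

/-- the values of `Φ` -/
noncomputable def PhF (q : ℕ) (lam : ℂ) (ρ : Fin n → ℝ) (θ : Fin (n + q) → ℝ) : ℂ :=
  lam * ∏ k, circ (ρ k) (θ (Fin.castAdd q k))

/-- the values of `(∑ y_i)/Φ` -/
noncomputable def kF (q : ℕ) (lam : ℂ) (ρ : Fin n → ℝ) (θ : Fin (n + q) → ℝ) : ℂ :=
  (∑ i, yT n θ i) * (PhF q lam ρ θ)⁻¹

/-- the values of `Φ - ∑ y_i` -/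
noncomputable def PsF (q : ℕ) (lam : ℂ) (ρ : Fin n → ℝ) (θ : Fin (n + q) → ℝ) : ℂ :=
  PhF q lam ρ θ * (1 - kF q lam ρ θ)

/-- the values of `1/(Y (Φ - ∑ y_i)²)` -/
noncomputable def etF (w : Fin q → ℕ) (lam : ℂ) (ρ : Fin n → ℝ) (θ : Fin (n + q) → ℝ) : ℂ :=
  ((∏ i, yT n θ i ^ (w i + 1)) * (PsF q lam ρ θ * PsF q lam ρ θ))⁻¹

/-- the values of `z` -/
noncomputable def zF (w : Fin q → ℕ) (lam : ℂ) (ρ : Fin n → ℝ) (θ : Fin (n + q) → ℝ) : ℂ :=
  PsF q lam ρ θ * he (etF w lam ρ θ)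

section basic

variable (hlam : lam ≠ 0) (hρ : ∀ k, 0 < ρ k)

include hρ in
theorem norm_PhF (θ : Fin (n + q) → ℝ) : ‖PhF q lam ρ θ‖ = ‖lam‖ * ∏ k, ρ k := by
  unfold PhF
  rw [norm_mul, norm_prod]
  congr 1
  exact Finset.prod_congr rfl fun k _ => norm_circ (hρ k).le _

theorem contDiff_PhF : ContDiff ℝ 2 (PhF q lam ρ) :=
  contDiff_const.mul (contDiff_prod fun k _ => (contDiff_circ _).comp
    (contDiff_apply ℝ ℝ (Fin.castAdd q k)))

theorem circ_per (x : ℝ) (θ : Fin (n + q) → ℝ) (j k : Fin (n + q)) :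
    circ x ((θ + Pi.single j 1 : Fin (n + q) → ℝ) k) = circ x (θ k) := by
  by_cases hk : k = j
  · subst hk
    rw [Pi.add_apply, Pi.single_eq_same, circ_add_one]
  · rw [Pi.add_apply, Pi.single_eq_of_ne hk, add_zero]

theorem per_PhF : Per (PhF q lam ρ) := by
  intro θ j
  unfold PhF
  simp only [circ_per]

include hlam hρ in
theorem good_PhF : Good (PhF q lam ρ) := by
  refine ⟨contDiff_PhF, fun θ => ?_⟩
  rw [← norm_ne_zero_iff, norm_PhF hρ]
  exact (mul_pos (norm_pos_iff.2 hlam) (Finset.prod_pos fun k _ => hρ k)).ne'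

variable (hP : 4 + 2 * (q : ℝ) ≤ ‖lam‖ * ∏ k, ρ k)

include hρ hP

theorem norm_kF_le (θ : Fin (n + q) → ℝ) : ‖kF q lam ρ θ‖ ≤ q / (‖lam‖ * ∏ k, ρ k) := by
  have hq : (0 : ℝ) ≤ q := Nat.cast_nonneg q
  unfold kF
  rw [norm_mul, norm_inv, ← div_eq_mul_inv, norm_PhF hρ]
  exact div_le_div_of_nonneg_right (norm_sum_yT θ) (by linarith)

theorem norm_kF_le_half (θ : Fin (n + q) → ℝ) : ‖kF q lam ρ θ‖ ≤ 1 / 2 := by
  have hq : (0 : ℝ) ≤ q := Nat.cast_nonneg q
  refine (norm_kF_le hρ hP θ).trans ?_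
  rw [div_le_iff₀ (by linarith)]
  linarith

theorem slit_kF (θ : Fin (n + q) → ℝ) : 1 - kF q lam ρ θ ∈ Complex.slitPlane := by
  rw [sub_eq_add_neg]
  refine Complex.mem_slitPlane_of_norm_lt_one ?_
  rw [norm_neg]
  have := norm_kF_le_half hρ hP θ
  linarith

include hlam

theorem good_kF : Good fun θ : Fin (n + q) → ℝ => 1 - kF q lam ρ θ := by
  have g := good_PhF (q := q) hlam hρ
  refine ⟨contDiff_const.sub ((ContDiff.sum fun i _ => (good_yT (n := n) i).smooth).mul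
    (g.smooth.inv g.ne_zero)), fun θ => Complex.slitPlane_ne_zero (slit_kF hρ hP θ)⟩

theorem good_PsF : Good (PsF q lam ρ) :=
  (good_PhF hlam hρ).mul (good_kF hlam hρ hP)

omit hlam hρ hP in
theorem per_kF : Per (kF q lam ρ) := by
  intro θ j
  unfold kF
  rw [per_PhF θ j]
  simp only [per_yT]

omit hlam hρ hP in
theorem per_PsF : Per (PsF q lam ρ) := by
  intro θ j
  unfold PsF
  rw [per_PhF θ j, per_kF θ j]

theorem PsF_eq (θ : Fin (n + q) → ℝ) : PsF q lam ρ θ = PhF q lam ρ θ - ∑ i, yT n θ i := by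
  have h0 := (good_PhF (q := q) hlam hρ).ne_zero θ
  unfold PsF kF
  field_simp

theorem norm_PsF_ge (θ : Fin (n + q) → ℝ) : ‖lam‖ * ∏ k, ρ k - q ≤ ‖PsF q lam ρ θ‖ := by
  have h3 := norm_sub_norm_le (PhF q lam ρ θ) (∑ i, yT n θ i)
  have h4 := norm_sum_yT θ
  rw [PsF_eq hlam hρ hP]
  rw [norm_PhF hρ] at h3
  linarith

theorem good_etF : Good (etF w lam ρ) := by
  have g := (good_prod Finset.univ fun i =>
    Pool.Agent.TH690.SF.good_pow (good_yT (n := n) i) (w i + 1)).mul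
    ((good_PsF hlam hρ hP).mul (good_PsF hlam hρ hP))
  exact ⟨g.smooth.inv g.ne_zero, fun θ => inv_ne_zero (g.ne_zero θ)⟩

omit hlam hρ hP in
theorem per_etF : Per (etF w lam ρ) := by
  intro θ j
  unfold etF
  rw [per_PsF θ j]
  simp only [per_yT]

theorem norm_etF_le (θ : Fin (n + q) → ℝ) :
    ‖etF w lam ρ θ‖ ≤ 1 / (‖lam‖ * ∏ k, ρ k - q) ^ 2 := by
  have hq : (0 : ℝ) ≤ q := Nat.cast_nonneg q
  have h2 := norm_PsF_ge hlam hρ hP θ
  set P : ℝ := ‖lam‖ * ∏ k, ρ k with hPd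
  have hP0 : 0 < P - q := by linarith
  unfold etF
  rw [norm_inv, norm_mul, norm_mul, norm_prod]
  simp only [norm_pow, norm_yT, one_pow, Finset.prod_const_one, one_mul]
  have h3 : (P - q) ^ 2 ≤ ‖PsF q lam ρ θ‖ * ‖PsF q lam ρ θ‖ := by
    rw [pow_two]
    exact mul_le_mul h2 h2 hP0.le (norm_nonneg _)
  rw [one_div]
  exact inv_anti₀ (by positivity) h3

theorem norm_etF_le' (θ : Fin (n + q) → ℝ) : ‖etF w lam ρ θ‖ ≤ 1 / 16 := by
  have hq : (0 : ℝ) ≤ q := Nat.cast_nonneg q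
  refine (norm_etF_le hlam hρ hP θ).trans ?_
  set P : ℝ := ‖lam‖ * ∏ k, ρ k with hPd
  have hP4 : 4 ≤ P - q := by linarith
  rw [div_le_div_iff₀ (by positivity) (by norm_num)]
  nlinarith

theorem good_heF : Good fun θ => he (etF w lam ρ θ) :=
  good_he_comp (good_etF hlam hρ hP) (norm_etF_le' hlam hρ hP)

theorem good_zF : Good (zF w lam ρ) :=
  (good_PsF hlam hρ hP).mul (good_heF hlam hρ hP)

omit hlam hρ hP in
theorem per_zF : Per (zF w lam ρ) := by
  intro θ j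
  unfold zF
  rw [per_PsF θ j, per_etF θ j]

end basic

section matrix

variable (H : ∀ k, Br (β k) (c k) (G k)) (hρ : ∀ k, 0 < ρ k)
  (hρc : ∀ k, 32 * ((m k : ℝ) + 1) * ρ k ≤ c k)

include H hρ hρc

theorem one_VF (t p : ∀ k, Fin (m k + 1)) (l : Fin (n + q)) :
    One (VF q β G ρ t p l) (vv q t p l) := by
  refine Fin.addCases (fun k => ?_) (fun i => ?_) l
  · unfold VF vv
    rw [Fin.append_left, Fin.append_left]
    exact one_gb (H k) (hρ k) (hρc k) (t k) (p k)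
  · unfold VF vv
    rw [Fin.append_right, Fin.append_right]
    exact one_circ

theorem ld_VF (t p : ∀ k, Fin (m k + 1)) (l : Fin (n + q)) (x : ℝ) :
    ‖deriv (VF q β G ρ t p l) x / VF q β G ρ t p l x‖ ≤ 4 * Real.pi := by
  refine Fin.addCases (fun k => ?_) (fun i => ?_) l
  · unfold VF
    rw [Fin.append_left]
    exact ld_gb (H k) (hρ k) (hρc k) (t k) (p k) x
  · unfold VF
    rw [Fin.append_right]
    have := Real.pi_pos
    linarith [norm_ld_circ x]

/-- the error -/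
noncomputable def errF (q : ℕ) (m : Fin n → ℕ) (c ρ : Fin n → ℝ) (P : ℝ) : ℝ :=
  ∑ k, ((m k : ℝ) + 1) * (24 * ρ k / c k * (4 * Real.pi) ^ (n + q)) +
    (3 / 2 * (q / P) + 9 / 2 * (1 / (P - q) ^ 2)) * (4 * Real.pi) ^ (n + q)

theorem near_F (hn : 0 < n) (hlam : lam ≠ 0) (hP : 4 + 2 * (q : ℝ) ≤ ‖lam‖ * ∏ k, ρ k)
    (t p : ∀ k, Fin (m k + 1)) :
    |pairing (Fin.cons (zF w lam ρ) (vf (VF q β G ρ t p))) -
      (2 * Real.pi) ^ (n + q) * (Real.log ‖lam‖ * (∏ k, if p k = t k then (1 : ℝ) else 0) +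
        ∑ k, (∏ l ∈ Finset.univ.erase k, if p l = t l then (1 : ℝ) else 0) *
          LL (β k) (p k) (t k))| ≤ errF q m c ρ (‖lam‖ * ∏ k, ρ k) := by
  classical
  have hq : (0 : ℝ) ≤ q := Nat.cast_nonneg q
  have hpi := Real.pi_pos
  have hV := one_VF (q := q) H hρ hρc t p
  have hVC := ld_VF (q := q) H hρ hρc t p
  have gV : ∀ l, Good (vf (VF q β G ρ t p) l) := fun l => (hV l).good l
  have gPh := good_PhF (q := q) hlam hρ
  have gk := good_kF hlam hρ hP
  have gPs := good_PsF hlam hρ hP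
  have gh := good_heF (w := w) hlam hρ hP
  have hD : 0 < n + q := by omega
  set P : ℝ := ‖lam‖ * ∏ k, ρ k with hPd
  have h1 : pairing (Fin.cons (zF w lam ρ) (vf (VF q β G ρ t p))) =
      pairing (Fin.cons (PsF q lam ρ) (vf (VF q β G ρ t p))) +
      pairing (Fin.cons (fun θ => he (etF w lam ρ θ)) (vf (VF q β G ρ t p))) :=
    pairing_cons_mul gPs gh gV
  have h2 : pairing (Fin.cons (PsF q lam ρ) (vf (VF q β G ρ t p))) =
      pairing (Fin.cons (PhF q lam ρ) (vf (VF q β G ρ t p))) +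
      pairing (Fin.cons (fun θ => 1 - kF q lam ρ θ) (vf (VF q β G ρ t p))) :=
    pairing_cons_mul gPh gk gV
  have h3 := abs_pairing_log_le (d := n + q) hD gk.smooth (fun θ i => by
      simp only
      rw [per_kF θ i]) (slit_kF hρ hP) hV (A := 3 / 2 * (q / P)) (C := 4 * Real.pi)
    (fun θ => by
      have h5 := norm_kF_le_half hρ hP θ
      have h6 := Complex.norm_log_one_add_half_le_self (z := -kF q lam ρ θ) (by
        rw [norm_neg]
        linarith)
      rw [← sub_eq_add_neg, norm_neg] at h6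
      calc _ ≤ 3 / 2 * ‖kF q lam ρ θ‖ := h6
        _ ≤ 3 / 2 * (q / P) :=
          mul_le_mul_of_nonneg_left (norm_kF_le hρ hP θ) (by norm_num)) hVC
  have e2 : ∀ θ, he (etF w lam ρ θ) = 1 + (he (etF w lam ρ θ) - 1) := fun θ => by ring
  have hb : ∀ θ, ‖he (etF w lam ρ θ) - 1‖ ≤ 3 * ‖etF w lam ρ θ‖ := fun θ =>
    norm_he_sub_one (norm_etF_le' hlam hρ hP θ)
  have hb2 : ∀ θ, ‖he (etF w lam ρ θ) - 1‖ ≤ 3 / 16 := fun θ => by
    have := norm_etF_le' (w := w) hlam hρ hP θ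
    linarith [hb θ]
  have h4 := abs_pairing_log_le (d := n + q) hD gh.smooth (fun θ i => by
      simp only
      rw [per_etF θ i]) (fun θ => by
      rw [e2]
      exact Complex.mem_slitPlane_of_norm_lt_one (lt_of_le_of_lt (hb2 θ) (by norm_num))) hV
    (A := 9 / 2 * (1 / (P - q) ^ 2)) (C := 4 * Real.pi) (fun θ => by
      rw [e2]
      have h5 := Complex.norm_log_one_add_half_le_self (z := he (etF w lam ρ θ) - 1)
        ((hb2 θ).trans (by norm_num))
      calc _ ≤ 3 / 2 * ‖he (etF w lam ρ θ) - 1‖ := h5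
        _ ≤ 3 / 2 * (3 * ‖etF w lam ρ θ‖) := mul_le_mul_of_nonneg_left (hb θ) (by norm_num)
        _ = 9 / 2 * ‖etF w lam ρ θ‖ := by ring
        _ ≤ 9 / 2 * (1 / (P - q) ^ 2) :=
          mul_le_mul_of_nonneg_left (norm_etF_le hlam hρ hP θ) (by norm_num)) hVC
  -- the main term
  have gc : ∀ k : Fin n, Good fun θ : Fin (n + q) → ℝ => circ (ρ k) (θ (Fin.castAdd q k)) :=
    fun k => (one_circ' (H k) (hρ k) (hρc k)).good (Fin.castAdd q k)
  have h5 : pairing (Fin.cons (PhF q lam ρ) (vf (VF q β G ρ t p))) =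
      (2 * Real.pi) ^ (n + q) * Real.log ‖lam‖ * (∏ k, if p k = t k then (1 : ℝ) else 0) +
      ∑ k, pairing (Fin.cons (fun θ : Fin (n + q) → ℝ => circ (ρ k) (θ (Fin.castAdd q k)))
        (vf (VF q β G ρ t p))) := by
    have h6 := pairing_cons_mul (good_const (d := n + q) hlam) (good_prod Finset.univ gc) gV
    rw [pairing_const _ _ _ hV, pairing_prod Finset.univ gc hV] at h6
    unfold vv at h6
    rw [prod_append_one] at h6
    exact h6
  have hslot : ∀ k : Fin n, |pairing (Fin.cons (fun θ : Fin (n + q) → ℝ =>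
      circ (ρ k) (θ (Fin.castAdd q k))) (vf (VF q β G ρ t p))) - (2 * Real.pi) ^ (n + q) *
        ((∏ l ∈ Finset.univ.erase k, if p l = t l then (1 : ℝ) else 0) *
          LL (β k) (p k) (t k))| ≤
      ((m k : ℝ) + 1) * (24 * ρ k / c k * (4 * Real.pi) ^ (n + q)) := by
    intro k
    have h6 := near_slot (H k) (hρ k) (hρc k) hD hV hVC (Fin.castAdd q k) (t k) (p k)
      (by unfold VF; rw [Fin.append_left]) (by linarith)
    unfold vv at h6
    rw [prod_erase_castAdd] at h6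
    exact h6
  have h7 : pairing (Fin.cons (zF w lam ρ) (vf (VF q β G ρ t p))) -
      (2 * Real.pi) ^ (n + q) * (Real.log ‖lam‖ * (∏ k, if p k = t k then (1 : ℝ) else 0) +
        ∑ k, (∏ l ∈ Finset.univ.erase k, if p l = t l then (1 : ℝ) else 0) *
          LL (β k) (p k) (t k)) =
      ∑ k, (pairing (Fin.cons (fun θ : Fin (n + q) → ℝ => circ (ρ k) (θ (Fin.castAdd q k)))
        (vf (VF q β G ρ t p))) - (2 * Real.pi) ^ (n + q) *
        ((∏ l ∈ Finset.univ.erase k, if p l = t l then (1 : ℝ) else 0) *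
          LL (β k) (p k) (t k))) +
      (pairing (Fin.cons (fun θ => 1 - kF q lam ρ θ) (vf (VF q β G ρ t p))) +
      pairing (Fin.cons (fun θ => he (etF w lam ρ θ)) (vf (VF q β G ρ t p)))) := by
    rw [h1, h2, h5, Finset.sum_sub_distrib, ← Finset.mul_sum]
    ring
  rw [h7]
  refine (abs_add_le _ _).trans (add_le_add ((Finset.abs_sum_le_sum_abs _ _).trans
    (Finset.sum_le_sum fun k _ => hslot k)) ?_)
  refine (abs_add_le _ _).trans ((add_le_add h3 h4).trans (le_of_eq ?_))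
  ring

end matrix

end Pool.Agent.Run7.h363.CV
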