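import Pool.Agent.Run7.h363.CV.FB
import Pool.Agent.Run7.h363.BD.FBTori
set_option autoImplicit false

/-!
Tori in the fibrations `z + y_1 + ... + y_q + 1/(z ∏ y_i ^ (w_i + 1)) = λ ∏_k ∏_i (x_k - a_{k,i})`
on which the absolute values of the factors of the right side are constant.
-/

namespace Pool.Agent.Run7.h363.CV

open Polynomial

open Pool.Agent.TH826.MK

open Pool.Agent.TH690.PF (PRing POpen mPhi fl pent ux uy uz pcst PPt mkP mkP_ux mkP_uy mkP_uz
  eval_mPhi SmoothPts IndepReg)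

open Pool.Agent.TH690.SF (he he_eq)

open Pool.Agent.TH826.UM (vv yT good_yT per_yT pairing_expandA d0)

open Pool.Agent.Run7.h363.BD (LL kron_sum exists_columns_of_pos0)

/-- the constant -/
noncomputable def CF {n q : ℕ} (m : Fin n → ℕ) (w : Fin q → ℕ) : ℝ :=
  96 * 2 ^ (n + q) * ((n : ℝ) + q) * (∏ k, ((m k : ℝ) + 1)) ^ 2 + ∑ i, (w i : ℝ)

section const

variable {n q : ℕ} (m : Fin n → ℕ) (w : Fin q → ℕ)

theorem one_le_NF : (1 : ℝ) ≤ ∏ k, ((m k : ℝ) + 1) :=
  Finset.one_le_prod fun k _ => by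
    have : (0 : ℝ) ≤ m k := Nat.cast_nonneg _
    linarith

theorem le_NF (k : Fin n) : (m k : ℝ) + 1 ≤ ∏ k, ((m k : ℝ) + 1) := by
  rw [← Finset.mul_prod_erase _ _ (Finset.mem_univ k)]
  refine le_mul_of_one_le_right (by positivity) ?_
  exact Finset.one_le_prod fun k _ => by
    have : (0 : ℝ) ≤ m k := Nat.cast_nonneg _
    linarith

theorem CF_ge : 96 * 2 ^ (n + q) * ((n : ℝ) + q) * (∏ k, ((m k : ℝ) + 1)) ^ 2 ≤ CF m w := by
  unfold CF
  have : 0 ≤ ∑ i, (w i : ℝ) := Finset.sum_nonneg fun i _ => Nat.cast_nonneg _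
  linarith

/-- `48 · 2^(n+q) N ≤ CF / 2`, and more -/
theorem CF_ge' (hn : 0 < n) : 96 * 2 ^ (n + q) * ((n : ℝ) + q) * ∏ k, ((m k : ℝ) + 1) ≤ CF m w := by
  refine le_trans ?_ (CF_ge m w)
  have h1 := one_le_NF m
  have h2 : (∏ k, ((m k : ℝ) + 1)) ≤ (∏ k, ((m k : ℝ) + 1)) ^ 2 := le_self_pow₀ h1 (by norm_num)
  exact mul_le_mul_of_nonneg_left h2 (by positivity)

theorem CF_ge_q (hn : 0 < n) : 96 * ((n : ℝ) + q) ≤ CF m w := by
  refine le_trans ?_ (CF_ge' m w hn)
  have h1 := one_le_NF m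
  have h2 : (1 : ℝ) ≤ 2 ^ (n + q) := one_le_pow₀ (by norm_num)
  have h3 : (0 : ℝ) ≤ 96 * ((n : ℝ) + q) := by positivity
  calc 96 * ((n : ℝ) + q) = 96 * ((n : ℝ) + q) * (1 * 1) := by ring
    _ ≤ 96 * ((n : ℝ) + q) * (2 ^ (n + q) * ∏ k, ((m k : ℝ) + 1)) :=
        mul_le_mul_of_nonneg_left (mul_le_mul h2 h1 zero_le_one (by linarith)) h3
    _ = _ := by ring

theorem CF_ge_96 (hn : 0 < n) : 96 ≤ CF m w := by
  refine le_trans ?_ (CF_ge_q m w hn)
  have h1 : (1 : ℝ) ≤ n := by exact_mod_cast hn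
  have h2 : (0 : ℝ) ≤ q := Nat.cast_nonneg q
  linarith

theorem errF_le (hn : 0 < n) {c ρ : Fin n → ℝ} (hc : ∀ k, 0 < c k)
    (hρ : ∀ k, ρ k = c k / CF m w) {P : ℝ} (hP : CF m w ≤ P) :
    (∏ k, ((m k : ℝ) + 1)) * errF q m c ρ P ≤ (2 * Real.pi) ^ (n + q) * (3 / 4) := by
  have hpi := Real.pi_pos
  set N : ℝ := ∏ k, ((m k : ℝ) + 1) with hN
  set B : ℝ := CF m w with hB
  have hN1 : 1 ≤ N := one_le_NF m
  have hB96 : 96 ≤ B := CF_ge_96 m w hn
  have hBq := CF_ge_q m w hn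
  have hB1 := CF_ge m w
  have hB2 := CF_ge' m w hn
  have hn1 : (1 : ℝ) ≤ n := by exact_mod_cast hn
  have hq : (0 : ℝ) ≤ q := Nat.cast_nonneg q
  have h2p : (1 : ℝ) ≤ 2 ^ (n + q) := one_le_pow₀ (by norm_num)
  have h4 : (4 * Real.pi) ^ (n + q) = 2 ^ (n + q) * (2 * Real.pi) ^ (n + q) := by
    rw [← mul_pow]
    ring
  set T : ℝ := 2 ^ (n + q) with hT
  set Q : ℝ := (2 * Real.pi) ^ (n + q) with hQ
  have hQ0 : 0 < Q := by positivity
  -- the first sum
  have e1 : ∑ k, ((m k : ℝ) + 1) * (24 * ρ k / c k * (4 * Real.pi) ^ (n + q)) ≤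
      n * (N * (24 / B * (T * Q))) := by
    calc ∑ k, ((m k : ℝ) + 1) * (24 * ρ k / c k * (4 * Real.pi) ^ (n + q)) ≤
          ∑ _k : Fin n, N * (24 / B * (T * Q)) := by
          refine Finset.sum_le_sum fun k _ => ?_
          have e2 : 24 * ρ k / c k = 24 / B := by
            rw [hρ k]
            have := (hc k).ne'
            field_simp
          rw [e2, h4]
          exact mul_le_mul_of_nonneg_right (le_NF m k) (by positivity)
      _ = _ := by
          rw [Finset.sum_const, Finset.card_univ, Fintype.card_fin, nsmul_eq_mul]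
  have e2 : N * (n * (N * (24 / B * (T * Q)))) ≤ Q * (1 / 4) := by
    have e3 : N * (n * (N * (24 / B * (T * Q)))) = Q * ((24 * T * n * N ^ 2) / B) := by ring
    rw [e3]
    refine mul_le_mul_of_nonneg_left ?_ hQ0.le
    rw [div_le_iff₀ (by linarith)]
    have e4 : 96 * T * n * N ^ 2 ≤ 96 * T * ((n : ℝ) + q) * N ^ 2 := by
      refine mul_le_mul_of_nonneg_right ?_ (by positivity)
      exact mul_le_mul_of_nonneg_left (by linarith) (by positivity)
    linarith
  -- the second error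
  have hP0 : 0 < P := by linarith
  have e3 : N * (3 / 2 * (q / P) * (T * Q)) ≤ Q * (1 / 4) := by
    have e4 : N * (3 / 2 * (q / P) * (T * Q)) = Q * ((3 / 2 * T * q * N) / P) := by ring
    rw [e4]
    refine mul_le_mul_of_nonneg_left ?_ hQ0.le
    rw [div_le_iff₀ hP0]
    have e5 : 96 * T * q * N ≤ 96 * T * ((n : ℝ) + q) * N := by
      refine mul_le_mul_of_nonneg_right ?_ (by linarith)
      exact mul_le_mul_of_nonneg_left (by linarith) (by positivity)
    have e6 : 0 ≤ T * q * N := by positivity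
    linarith
  -- the third error
  have e4 : N * (9 / 2 * (1 / (P - q) ^ 2) * (T * Q)) ≤ Q * (1 / 4) := by
    have h5 : 48 * T * N ≤ P - q := by
      have h6 : 96 * T * N ≤ 96 * T * ((n : ℝ) + q) * N := by
        refine mul_le_mul_of_nonneg_right ?_ (by linarith)
        nlinarith
      have h7 : (q : ℝ) ≤ P / 2 := by linarith
      linarith
    have h6 : 0 < P - q := by
      have : 0 < 48 * T * N := by positivity
      linarith
    have h7 : 18 * T * N ≤ (P - q) ^ 2 := by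
      have h8 : 1 ≤ T * N := one_le_mul_of_one_le_of_one_le h2p hN1
      have h9 : 1 ≤ P - q := by nlinarith
      nlinarith
    have e5 : N * (9 / 2 * (1 / (P - q) ^ 2) * (T * Q)) = Q * ((9 / 2 * T * N) / (P - q) ^ 2) := by
      ring
    rw [e5]
    refine mul_le_mul_of_nonneg_left ?_ hQ0.le
    rw [div_le_iff₀ (by positivity)]
    linarith
  unfold errF
  rw [h4] at e1
  rw [h4, mul_add]
  have e5 : N * ∑ k, ((m k : ℝ) + 1) * (24 * ρ k / c k * (T * Q)) ≤ Q * (1 / 4) :=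
    (mul_le_mul_of_nonneg_left e1 (by linarith)).trans e2
  have e6 : N * ((3 / 2 * (q / P) + 9 / 2 * (1 / (P - q) ^ 2)) * (T * Q)) =
      N * (3 / 2 * (q / P) * (T * Q)) + N * (9 / 2 * (1 / (P - q) ^ 2) * (T * Q)) := by ring
  rw [e6]
  linarith

end const

theorem kron_sum' {n : ℕ} (hn : 0 < n) {r : Fin n → ℕ}
    (L : ∀ k, Fin (r k + 1) → Fin (r k + 1) → ℝ) (b : Fin n → ℝ) (m : ℝ)
    (hL : ∀ k (v : Fin (r k + 1) → ℝ), ∑ x, v x = 0 →
      b k * ∑ x, v x ^ 2 ≤ ∑ x, ∑ y, v x * (L k x y * v y))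
    (u : (∀ k, Fin (r k + 1)) → ℝ) (hu : ∀ k p, ∑ x, u (Function.update p k x) = 0) :
    (m + ∑ k, b k) * ∑ p, u p ^ 2 ≤ ∑ p, ∑ q, u p * ((m * (∏ k, if p k = q k then (1 : ℝ) else 0) +
      ∑ k, (∏ l ∈ Finset.univ.erase k, if p l = q l then (1 : ℝ) else 0) *
        L k (p k) (q k)) * u q) := by
  obtain ⟨n, rfl⟩ : ∃ n', n = n' + 1 := ⟨n - 1, by omega⟩
  exact kron_sum L b m hL u hu

section tori

variable {K : Type*} [Field K] {n q : ℕ} {m : Fin n → ℕ} {σ : K →+* ℂ} {lam : K}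
  {a : (k : Fin n) → Fin (m k + 1) → K}

theorem append_eq_vfF {β : ∀ k : Fin n, Fin (m k + 1) → ℂ} {G : ∀ k, Fin (m k + 1) → ℂ → ℂ}
    {ρ : Fin n → ℝ} (t p : ∀ k, Fin (m k + 1)) :
    (Fin.append (fun k (θ : Fin (n + q) → ℝ) =>
        gb (β k) (G k) (ρ k) (t k) (p k) (θ (Fin.castAdd q k)))
      fun j θ => yT n θ j : Fin (n + q) → (Fin (n + q) → ℝ) → ℂ) = vf (VF q β G ρ t p) := by
  funext l θ
  refine Fin.addCases (fun k => ?_) (fun j => ?_) l
  · rw [Fin.append_left]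
    unfold vf VF
    rw [Fin.append_left]
  · rw [Fin.append_right]
    unfold vf VF
    rw [Fin.append_right]
    rfl

set_option maxHeartbeats 1000000 in
theorem indepReg (hn : 0 < n) (w : Fin q → ℕ) (hinj : ∀ k, Function.Injective (a k))
    {c : Fin n → ℝ} (hc : ∀ k, 0 < c k)
    (hcrit : ∀ k x, (derivative (∏ i, (X - C (σ (a k i))))).eval x = 0 →
      c k ≤ ‖(∏ i, (X - C (σ (a k i)))).eval x‖)
    (hlam : CF m w ^ (n + 1) ≤ ‖σ lam‖ * ∏ k, c k) : IndepReg w σ lam a := by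
  classical
  have hpi := Real.pi_pos
  have hB96 := CF_ge_96 m w hn
  have hB0 : 0 < CF m w := by linarith
  set β : ∀ k : Fin n, Fin (m k + 1) → ℂ := fun k i => σ (a k i) with hβ
  have hβi : ∀ k, Function.Injective (β k) := fun k => σ.injective.comp (hinj k)
  have hlam0 : σ lam ≠ 0 := by
    intro h
    rw [h, norm_zero, zero_mul] at hlam
    have := pow_pos hB0 (n + 1)
    linarith
  choose G H using fun k => exists_br (β k) (hβi k) (hc k) (hcrit k)
  set ρ : Fin n → ℝ := fun k => c k / CF m w with hρd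
  have hρ : ∀ k, 0 < ρ k := fun k => div_pos (hc k) hB0
  have hρc : ∀ k, 32 * ((m k : ℝ) + 1) * ρ k ≤ c k := by
    intro k
    have h1 := hc k
    simp only [hρd]
    rw [← mul_div_assoc, div_le_iff₀ hB0, mul_comm (c k)]
    refine mul_le_mul_of_nonneg_right ?_ h1.le
    have h2 := le_NF m k
    have h3 := CF_ge' m w hn
    have h4 : (1 : ℝ) ≤ 2 ^ (n + q) := one_le_pow₀ (by norm_num)
    have h5 : (1 : ℝ) ≤ (n : ℝ) + q := by
      have h6 : (1 : ℝ) ≤ n := by exact_mod_cast hn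
      have h7 : (0 : ℝ) ≤ q := Nat.cast_nonneg q
      linarith
    have h6 := one_le_mul_of_one_le_of_one_le h4 h5
    have h7 := one_le_NF m
    nlinarith
  have hP : CF m w ≤ ‖σ lam‖ * ∏ k, ρ k := by
    simp only [hρd]
    rw [Finset.prod_div_distrib, Finset.prod_const, Finset.card_univ, Fintype.card_fin,
      ← mul_div_assoc, le_div_iff₀ (pow_pos hB0 _), ← pow_succ']
    exact hlam
  have hP2 : 4 + 2 * (q : ℝ) ≤ ‖σ lam‖ * ∏ k, ρ k := by
    have h1 := CF_ge_q m w hn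
    have h2 : (1 : ℝ) ≤ n := by exact_mod_cast hn
    have h3 : (0 : ℝ) ≤ q := Nat.cast_nonneg q
    linarith
  have gzF := good_zF (w := w) hlam0 hρ hP2
  set X : (∀ k, Fin (m k + 1)) → (Fin (n + q) → ℝ) → (Fin n → ℂ) := fun t θ k =>
    G k (t k) (circ (ρ k) (θ (Fin.castAdd q k))) with hX
  have hXf : ∀ t θ (k : Fin n) i, X t θ k - σ (a k i) =
      gb (β k) (G k) (ρ k) (t k) i (θ (Fin.castAdd q k)) := fun t θ k i => rfl
  have hXc : ∀ t, ContDiff ℝ 2 (X t) := fun t => contDiff_pi.2 fun k =>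
    (contDiff_G (H k) (hρ k) (hρc k) (t k)).comp (contDiff_apply ℝ ℝ (Fin.castAdd q k))
  have hXp : ∀ t θ i, X t (θ + Pi.single i 1) = X t θ := by
    intro t θ i
    funext k
    simp only [hX]
    rw [circ_per]
  have hPhi : ∀ t θ, MvPolynomial.eval₂ σ (X t θ) (mPhi lam a) = PhF q (σ lam) ρ θ := by
    intro t θ
    rw [eval_mPhi, Fintype.prod_sigma]
    unfold PhF
    congr 1
    refine Finset.prod_congr rfl fun k _ => ?_
    exact (H k).prod (t k) (circ (ρ k) (θ (Fin.castAdd q k)))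
      (circ_mem (H k) (hρ k) (hρc k) (θ (Fin.castAdd q k)))
  have hyc : ContDiff ℝ 2 fun θ : Fin (n + q) → ℝ => yT n θ := contDiff_pi.2 fun i =>
    (good_yT (n := n) i).smooth
  have hyp : ∀ (θ : Fin (n + q) → ℝ) i, yT n (θ + Pi.single i 1) = yT n θ := fun θ i =>
    funext fun j => per_yT θ i j
  have hPt : ∀ t θ, PPt w σ (mPhi lam a) (X t θ) (yT n θ) (zF w (σ lam) ρ θ) := by
    intro t θ
    have g1 := (good_PhF (q := q) hlam0 hρ).ne_zero θ
    refine ⟨?_, by rw [hPhi]; exact g1⟩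
    have h1 : ∑ i, yT n θ i - MvPolynomial.eval₂ σ (X t θ) (mPhi lam a) =
        -PsF q (σ lam) ρ θ := by
      rw [hPhi, PsF_eq hlam0 hρ hP2]
      ring
    rw [h1]
    have h2 := he_eq (norm_etF_le' (w := w) hlam0 hρ hP2 θ)
    have g2 := (good_etF (w := w) hlam0 hρ hP2).ne_zero θ
    have h3 : (∏ i, yT n θ i ^ (w i + 1)) * (PsF q (σ lam) ρ θ * PsF q (σ lam) ρ θ) *
        etF w (σ lam) ρ θ = 1 := by
      unfold etF at g2 ⊢
      exact mul_inv_cancel₀ fun h => g2 (by rw [h, inv_zero])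
    unfold zF
    linear_combination ((∏ i, yT n θ i ^ (w i + 1)) *
      (PsF q (σ lam) ρ θ * PsF q (σ lam) ρ θ)) * h2 - h3
  set Γ' : (∀ k, Fin (m k + 1)) → Torus (POpen w (mPhi lam a)) (n + q) := fun t =>
    mkP (X t) (fun θ => yT n θ) (zF w (σ lam) ρ) (hXc t) hyc gzF.smooth
      (hXp t) hyp (fun θ i => per_zF θ i) (hPt t) with hΓ'
  have hux : ∀ t (k : Fin n) i, (Γ' t).fn (ux w lam a ⟨k, i⟩ : POpen w (mPhi lam a)) =
      fun θ => gb (β k) (G k) (ρ k) (t k) i (θ (Fin.castAdd q k)) := by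
    intro t k i
    refine (mkP_ux (X t) (fun θ => yT n θ) (zF w (σ lam) ρ) (hXc t) hyc gzF.smooth
      (hXp t) hyp (fun θ i => per_zF θ i) (hPt t) ⟨k, i⟩).trans ?_
    funext θ
    exact hXf t θ k i
  have huz : ∀ t, (Γ' t).fn (uz w (mPhi lam a) : POpen w (mPhi lam a)) = zF w (σ lam) ρ :=
    fun t => mkP_uz (X t) (fun θ => yT n θ) (zF w (σ lam) ρ) (hXc t) hyc gzF.smooth
      (hXp t) hyp (fun θ i => per_zF θ i) (hPt t)
  have huy : ∀ t j, (Γ' t).fn (uy w (mPhi lam a) j : POpen w (mPhi lam a)) =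
      fun θ => yT n θ j := fun t j =>
    mkP_uy (X t) (fun θ => yT n θ) (zF w (σ lam) ρ) (hXc t) hyc gzF.smooth
      (hXp t) hyp (fun θ i => per_zF θ i) (hPt t) j
  have hent : ∀ t (i : ∀ k, Fin (m k)), (Γ' t).reg (symb (pent w lam a i)) =
      ∑ p, (∏ k, d0 (i k) (p k)) * pairing (Fin.cons (zF w (σ lam) ρ)
        (vf (VF q β G ρ t p))) := by
    intro t i
    have h1 := pairing_expandA gzF per_zF
      (g := fun j θ => yT n θ j) (fun j => good_yT j) (fun j θ i => per_yT θ i j)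
      (F := fun k i (θ : Fin (n + q) → ℝ) =>
        gb (β k) (G k) (ρ k) (t k) i (θ (Fin.castAdd q k)))
      (fun k i => (one_gb (H k) (hρ k) (hρc k) (t k) i).good _)
      (fun k i => (one_gb (H k) (hρ k) (hρc k) (t k) i).periodic _) i
    have h2 : (Γ' t).reg (symb (pent w lam a i)) = pairing (Fin.cons (zF w (σ lam) ρ)
        (Fin.append (fun k (θ : Fin (n + q) → ℝ) =>
          gb (β k) (G k) (ρ k) (t k) (i k).succ (θ (Fin.castAdd q k)) /
            gb (β k) (G k) (ρ k) (t k) 0 (θ (Fin.castAdd q k)))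
          fun j θ => yT n θ j)) := by
      rw [Torus.reg_symb]
      unfold Torus.pair
      congr 1
      funext l
      refine Fin.cases ?_ (fun l => ?_) l
      · exact huz t
      · rw [Fin.cons_succ]
        refine Fin.addCases (fun k => ?_) (fun j => ?_) l
        · rw [Fin.append_left]
          have h3 : pent w lam a i (Fin.castAdd q k).succ =
              ux w lam a ⟨k, (i k).succ⟩ / ux w lam a ⟨k, 0⟩ := by
            unfold pent
            rw [Fin.cons_succ, Fin.append_left]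
          funext θ
          have h4 := ((Γ' t).good (ux w lam a ⟨k, 0⟩)).ne_zero θ
          have h5 : (Γ' t).fn ((ux w lam a ⟨k, (i k).succ⟩ / ux w lam a ⟨k, 0⟩ :
              (POpen w (mPhi lam a))ˣ) : POpen w (mPhi lam a)) θ =
              (Γ' t).fn (ux w lam a ⟨k, (i k).succ⟩ : POpen w (mPhi lam a)) θ /
              (Γ' t).fn (ux w lam a ⟨k, 0⟩ : POpen w (mPhi lam a)) θ := by
            rw [eq_div_iff h4]
            unfold Torus.fn
            rw [← map_mul, ← Units.val_mul, div_mul_cancel]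
          rw [h3, h5, hux, hux]
        · rw [Fin.append_right]
          have h3 : pent w lam a i (Fin.natAdd n j).succ = uy w (mPhi lam a) j := by
            unfold pent
            rw [Fin.cons_succ, Fin.append_right]
          rw [h3]
          exact huy t j
    rw [h2, h1]
    simp only [append_eq_vfF]
  -- the columns
  set R : Matrix (∀ k, Fin (m k + 1)) (∀ k, Fin (m k + 1)) ℝ :=
    Matrix.of fun p t : (∀ k, Fin (m k + 1)) =>
      pairing (Fin.cons (zF w (σ lam) ρ) (vf (VF q β G ρ t p))) with hR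
  set S : (∀ k, Fin (m k + 1)) → (∀ k, Fin (m k + 1)) → ℝ := fun p t =>
    (2 * Real.pi) ^ (n + q) * (Real.log ‖σ lam‖ * (∏ k, if p k = t k then (1 : ℝ) else 0) +
      ∑ k, (∏ l ∈ Finset.univ.erase k, if p l = t l then (1 : ℝ) else 0) *
        LL (β k) (p k) (t k)) with hS
  obtain ⟨e, he'⟩ := exists_columns_of_pos0 R S (Λ := (2 * Real.pi) ^ (n + q) *
    (Real.log ‖σ lam‖ + ∑ k, Real.log (c k))) (e := errF q m c ρ (‖σ lam‖ * ∏ k, ρ k))
    (by
      intro u hu
      have h1 := kron_sum' hn (fun k => LL (β k)) (fun k => Real.log (c k)) (Real.log ‖σ lam‖)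
        (fun k v hv => energy (β k) (hβi k) (hc k) (hcrit k) v hv) u hu
      have h2 := mul_le_mul_of_nonneg_left h1 (by positivity : 0 ≤ (2 * Real.pi) ^ (n + q))
      rw [mul_assoc]
      refine h2.trans (le_of_eq ?_)
      rw [Finset.mul_sum]
      refine Finset.sum_congr rfl fun p _ => ?_
      rw [Finset.mul_sum]
      refine Finset.sum_congr rfl fun t _ => ?_
      rw [hS]
      ring)
    (fun p t => near_F (w := w) H hρ hρc hn hlam0 hP2 t p)
    (by
      rw [Fintype.card_pi]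
      simp only [Fintype.card_fin]
      push_cast
      refine lt_of_le_of_lt (errF_le m w hn hc (fun k => rfl) hP) ?_
      refine mul_lt_mul_of_pos_left ?_ (by positivity)
      have e1 : Real.log ‖σ lam‖ + ∑ k, Real.log (c k) = Real.log (‖σ lam‖ * ∏ k, c k) := by
        rw [Real.log_mul (norm_ne_zero_iff.2 hlam0)
          (Finset.prod_ne_zero_iff.2 fun k _ => (hc k).ne'),
          Real.log_prod (fun k _ => (hc k).ne')]
      rw [e1]
      have e2 : (96 : ℝ) ≤ ‖σ lam‖ * ∏ k, c k := by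
        refine le_trans ?_ hlam
        refine hB96.trans ?_
        exact le_self_pow₀ (by linarith) (by omega)
      have e3 : (3 / 4 : ℝ) < Real.log 96 := by
        have h5 : (3 / 4 : ℝ) < Real.log 4 := by
          have h6 : Real.log 4 = 2 * Real.log 2 := by
            rw [show (4 : ℝ) = 2 ^ 2 by norm_num, Real.log_pow]
            push_cast
            ring
          have := Real.log_two_gt_d9
          linarith
        exact h5.trans (Real.log_lt_log (by norm_num) (by norm_num))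
      exact e3.trans_le (Real.log_le_log (by norm_num) e2))
  refine ⟨fun t => Γ' (e t), fun t θ x => (hPt (e t) θ).evA_pcst x, ?_⟩
  have hM : (Matrix.of fun t i : (∀ k, Fin (m k)) =>
      (Γ' (e t)).reg (symb (pent w lam a i))) = Matrix.of fun t i : (∀ k, Fin (m k)) =>
      ∑ p, (∏ k, d0 (i k) (p k)) * R p (e t) := by
    ext t i
    rw [Matrix.of_apply, Matrix.of_apply]
    exact hent (e t) i
  rw [hM]
  exact he'

/-- smoothness -/
theorem smoothPts (hn : 0 < n) (w : Fin q → ℕ) {c : Fin n → ℝ} (hc : ∀ k, 0 < c k)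
    (hcrit : ∀ k x, (derivative (∏ i, (X - C (σ (a k i))))).eval x = 0 →
      c k ≤ ‖(∏ i, (X - C (σ (a k i)))).eval x‖)
    (hlam : CF m w ^ (n + 1) ≤ ‖σ lam‖ * ∏ k, c k) : SmoothPts w σ (mPhi lam a) := by
  refine Pool.Agent.Run7.h363.BD.smoothPts_of w σ fun x h0 hcon => ?_
  refine lt_of_lt_of_le ?_ (Pool.Agent.Run7.h363.BD.noncrit_of hn σ (fun k => (hc k).le)
    hcrit x h0 hcon)
  refine lt_of_lt_of_le ?_ hlam
  have hB96 := CF_ge_96 m w hn
  refine lt_of_lt_of_le ?_ (le_self_pow₀ (by linarith : 1 ≤ CF m w) (by omega : n + 1 ≠ 0))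
  have h1 := CF_ge_q m w hn
  have h2 : (1 : ℝ) ≤ n := by exact_mod_cast hn
  have h3 : (0 : ℝ) ≤ q := Nat.cast_nonneg q
  have h4 : 96 * ((n : ℝ) + q) ≤ 96 * 2 ^ (n + q) * ((n : ℝ) + q) *
      (∏ k, ((m k : ℝ) + 1)) ^ 2 := by
    have h5 : (1 : ℝ) ≤ 2 ^ (n + q) := one_le_pow₀ (by norm_num)
    have h6 : (1 : ℝ) ≤ (∏ k, ((m k : ℝ) + 1)) ^ 2 := one_le_pow₀ (one_le_NF m)
    have h7 := one_le_mul_of_one_le_of_one_le h5 h6
    have h8 : (0 : ℝ) ≤ 96 * ((n : ℝ) + q) := by positivity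
    nlinarith [mul_le_mul_of_nonneg_left h7 h8]
  have h9 : ((∑ i, (w i + 1) : ℕ) : ℝ) + 2 = ∑ i, (w i : ℝ) + q + 2 := by
    push_cast
    rw [Finset.sum_add_distrib, Finset.sum_const, Finset.card_univ, Fintype.card_fin,
      nsmul_eq_mul, mul_one]
  rw [h9]
  unfold CF
  linarith

end tori

end Pool.Agent.Run7.h363.CV
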