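import Pool.Agent.Run7.h363.CV.Growth
import Pool.Agent.Run7.h363.CV.FBTori
set_option autoImplicit false

/-!
The growth of the lower bound for the critical values of polynomials with different integral roots, in
comparison with the constant for the fibrations.
-/

namespace Pool.Agent.Run7.h363.CV

open Pool.Agent.N686.DI (mm mm_pos)

theorem mm_growthF {n S t : ℕ} (hn : n ≤ S) (hS : 1 ≤ S) (ht : 16 * (S + 1) + 1 ≤ t) :
    2304 * 16 ^ S * (t : ℝ) ^ (2 * (n + 1)) ≤ mm t := by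
  set N : ℕ := S + 1 with hN
  obtain ⟨s, rfl⟩ : ∃ s, t = s + 8 * N := ⟨t - 8 * N, by omega⟩
  have hs : 8 * N + 1 ≤ s := by omega
  have h1 := mm_add (by omega : 2 ≤ s) (8 * N)
  refine le_trans ?_ h1
  set t : ℝ := ((s + 8 * N : ℕ) : ℝ) with ht'
  have hts : t / 4 ≤ (s : ℝ) / 2 := by
    have h2 : s + 8 * N ≤ 2 * s := by omega
    have h3 : t ≤ 2 * (s : ℝ) := by
      rw [ht']
      exact_mod_cast h2
    linarith
  have ht33 : (33 : ℝ) ≤ t := by
    have h2 : 33 ≤ s + 8 * N := by omega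
    rw [ht']
    exact_mod_cast h2
  have h2 : (t / 4) ^ (8 * N) ≤ ((s : ℝ) / 2) ^ (8 * N) :=
    pow_le_pow_left₀ (by linarith) hts _
  refine le_trans ?_ (mul_le_mul_of_nonneg_left h2 (by norm_num))
  have h6 : (576 : ℝ) * (16 * t ^ 2) ≤ (t / 4) ^ 8 := by
    have h7 : (33 : ℝ) ^ 6 ≤ t ^ 6 := pow_le_pow_left₀ (by norm_num) ht33 6
    have h8 : (t / 4) ^ 8 = t ^ 2 * t ^ 6 / 65536 := by ring
    rw [h8]
    have h9 : 0 ≤ t ^ 2 := sq_nonneg t
    have h10 : t ^ 2 * (33 : ℝ) ^ 6 ≤ t ^ 2 * t ^ 6 := mul_le_mul_of_nonneg_left h7 h9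
    have h11 : (603979776 : ℝ) ≤ 33 ^ 6 := by norm_num
    nlinarith
  have h3 : t ^ (2 * (n + 1)) ≤ t ^ (2 * N) :=
    pow_le_pow_right₀ (by linarith) (by omega)
  calc 2304 * 16 ^ S * t ^ (2 * (n + 1)) ≤ 2304 * 16 ^ S * t ^ (2 * N) :=
        mul_le_mul_of_nonneg_left h3 (by positivity)
    _ = 1 / 4 * (576 * (16 * t ^ 2) ^ N) := by
        rw [mul_pow, pow_mul, hN, pow_succ (16 : ℝ) S]
        ring
    _ ≤ 1 / 4 * (576 ^ N * (16 * t ^ 2) ^ N) := by
        have h12 : (576 : ℝ) ≤ 576 ^ N := le_self_pow₀ (by norm_num) (by omega)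
        have h13 : (0 : ℝ) ≤ (16 * t ^ 2) ^ N := by positivity
        nlinarith [mul_le_mul_of_nonneg_right h12 h13]
    _ = 1 / 4 * (576 * (16 * t ^ 2)) ^ N := by rw [mul_pow 576]
    _ ≤ 1 / 4 * ((t / 4) ^ 8) ^ N := by
        refine mul_le_mul_of_nonneg_left (pow_le_pow_left₀ (by positivity) h6 _) (by norm_num)
    _ = 1 / 4 * (t / 4) ^ (8 * N) := by rw [pow_mul]

theorem CF_le {n q : ℕ} (hn : 0 < n) (m : Fin n → ℕ) (w : Fin q → ℕ) {S : ℕ}
    (hS : S = n + ∑ i, (w i + 1)) :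
    CF m w ≤ 48 * 4 ^ S * (∏ k, ((m k : ℝ) + 1)) ^ 2 := by
  have hS' : (S : ℝ) = n + q + ∑ i, (w i : ℝ) := by
    rw [hS]
    push_cast
    rw [Finset.sum_add_distrib, Finset.sum_const, Finset.card_univ, Fintype.card_fin,
      nsmul_eq_mul, mul_one]
    ring
  have hSq : n + q ≤ S := by
    rw [hS, Finset.sum_add_distrib, Finset.sum_const, Finset.card_univ, Fintype.card_fin]
    simp only [smul_eq_mul, mul_one]
    omega
  have hS1 : 1 ≤ S := by omega
  have h1 : (S : ℝ) ≤ 2 ^ (S - 1) := by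
    have h2 : S - 1 + 1 ≤ 2 ^ (S - 1) := Nat.lt_two_pow_self
    have h3 : S ≤ 2 ^ (S - 1) := by omega
    exact_mod_cast h3
  have hw0 : 0 ≤ ∑ i, (w i : ℝ) := Finset.sum_nonneg fun i _ => Nat.cast_nonneg _
  have hN1 : (1 : ℝ) ≤ (∏ k, ((m k : ℝ) + 1)) ^ 2 := one_le_pow₀ (one_le_NF m)
  set N2 : ℝ := (∏ k, ((m k : ℝ) + 1)) ^ 2 with hN2
  have h2p : (1 : ℝ) ≤ 96 * 2 ^ (n + q) := by
    have : (1 : ℝ) ≤ 2 ^ (n + q) := one_le_pow₀ (by norm_num)
    linarith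
  unfold CF
  calc 96 * 2 ^ (n + q) * ((n : ℝ) + q) * N2 + ∑ i, (w i : ℝ) ≤
        96 * 2 ^ (n + q) * ((n : ℝ) + q) * N2 + 96 * 2 ^ (n + q) * (∑ i, (w i : ℝ)) * N2 := by
        have h3 : ∑ i, (w i : ℝ) ≤ 96 * 2 ^ (n + q) * (∑ i, (w i : ℝ)) * N2 := by
          calc ∑ i, (w i : ℝ) = 1 * (∑ i, (w i : ℝ)) * 1 := by ring
            _ ≤ 96 * 2 ^ (n + q) * (∑ i, (w i : ℝ)) * N2 :=
              mul_le_mul (mul_le_mul_of_nonneg_right h2p hw0) hN1 zero_le_one (by positivity)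
        linarith
    _ = 96 * 2 ^ (n + q) * S * N2 := by
        rw [hS']
        ring
    _ ≤ 96 * 2 ^ S * 2 ^ (S - 1) * N2 := by
        refine mul_le_mul_of_nonneg_right ?_ (by linarith)
        refine mul_le_mul (mul_le_mul_of_nonneg_left ?_ (by norm_num)) h1 (by positivity)
          (by positivity)
        exact pow_le_pow_right₀ (by norm_num) hSq
    _ = 48 * 4 ^ S * N2 := by
        have h3 : (4 : ℝ) ^ S = 2 ^ S * 2 ^ S := by
          rw [← mul_pow]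
          norm_num
        have h4 : (2 : ℝ) ^ S = 2 * 2 ^ (S - 1) := by
          rw [← pow_succ']
          congr 1
          omega
        rw [h3]
        nth_rewrite 3 [h4]
        ring

/-- the product of the lower bounds for the critical values -/
theorem CF_growth {n q : ℕ} (hn : 0 < n) (m : Fin n → ℕ) (w : Fin q → ℕ)
    (hm : ∀ k, 16 * (n + ∑ i, (w i + 1) + 1) ≤ m k) :
    CF m w ^ (n + 1) ≤ ∏ k, mm (m k + 1) := by
  set S : ℕ := n + ∑ i, (w i + 1) with hS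
  have h1 : ∀ k, 2304 * 16 ^ S * ((m k : ℝ) + 1) ^ (2 * (n + 1)) ≤ mm (m k + 1) := by
    intro k
    have h2 := mm_growthF (n := n) (S := S) (t := m k + 1) (by omega) (by omega) (by
      have := hm k
      omega)
    push_cast at h2
    exact h2
  have hCF0 : 0 ≤ CF m w := by linarith [CF_ge_96 m w hn]
  have hN1 := one_le_NF m
  calc CF m w ^ (n + 1) ≤ (48 * 4 ^ S * (∏ k, ((m k : ℝ) + 1)) ^ 2) ^ (n + 1) :=
        pow_le_pow_left₀ hCF0 (CF_le hn m w hS) _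
    _ = (48 * 4 ^ S) ^ (n + 1) * ∏ k, ((m k : ℝ) + 1) ^ (2 * (n + 1)) := by
        rw [mul_pow, ← pow_mul, Finset.prod_pow]
    _ ≤ (48 * 4 ^ S) ^ (2 * n) * ∏ k, ((m k : ℝ) + 1) ^ (2 * (n + 1)) := by
        refine mul_le_mul_of_nonneg_right ?_ (Finset.prod_nonneg fun k _ => by positivity)
        refine pow_le_pow_right₀ ?_ (by omega)
        have : (1 : ℝ) ≤ 4 ^ S := one_le_pow₀ (by norm_num)
        linarith
    _ = ∏ k, (2304 * 16 ^ S * ((m k : ℝ) + 1) ^ (2 * (n + 1))) := by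
        rw [Finset.prod_mul_distrib, Finset.prod_const, Finset.card_univ, Fintype.card_fin]
        congr 1
        rw [pow_mul, mul_pow, ← pow_mul, mul_comm S 2, pow_mul]
        norm_num
    _ ≤ ∏ k, mm (m k + 1) :=
        Finset.prod_le_prod (fun k _ => by positivity) fun k _ => h1 k

end Pool.Agent.Run7.h363.CV
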