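import Pool.Agent.Run7.h363.CV.Slot
import Pool.Agent.Run7.h363.CV.Energy
set_option autoImplicit false

/-!
The regulator matrix of `λ ∏_k ∏_i (x_k - β_{k,i}) = 1` on the tori on which the absolute values of the
factors are constant.
-/

namespace Pool.Agent.Run7.h363.CV

open Metric Set MeasureTheory

open Pool.Agent.TH826.MK

open Pool.Agent.Run7.h363.BD (LL prod_erase_zero prod_erase_succ)

variable {d : ℕ} {r : Fin (d + 1) → ℕ} {β : ∀ k, Fin (r k + 1) → ℂ} {c ρ : Fin (d + 1) → ℝ}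
  {G : ∀ k, Fin (r k + 1) → ℂ → ℂ} {lam : ℂ}

/-- the value of the factor of index `0` -/
noncomputable def w0 (lam : ℂ) (ρ : Fin (d + 1) → ℝ) (θ : Fin d → ℝ) : ℂ :=
  (lam * ∏ k : Fin d, circ (ρ k.succ) (θ k))⁻¹

/-- the entries in the coordinate directions -/
noncomputable def Vb (β : ∀ k, Fin (r k + 1) → ℂ) (G : ∀ k, Fin (r k + 1) → ℂ → ℂ)
    (ρ : Fin (d + 1) → ℝ) (p q : ∀ k, Fin (r k + 1)) (k : Fin d) : ℝ → ℂ :=
  gb (β k.succ) (G k.succ) (ρ k.succ) (q k.succ) (p k.succ)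

/-- the negatives of the regulators -/
noncomputable def Rb (lam : ℂ) (β : ∀ k, Fin (r k + 1) → ℂ) (G : ∀ k, Fin (r k + 1) → ℂ → ℂ)
    (ρ : Fin (d + 1) → ℝ) (p q : ∀ k, Fin (r k + 1)) : ℝ :=
  -pairing (Fin.cons (fun θ => G 0 (q 0) (w0 lam ρ θ) - β 0 (p 0)) (vf (Vb β G ρ p q)))

variable (hlam : lam ≠ 0) (hρ : ∀ k, 0 < ρ k)

include hlam hρ

theorem good_w0' : Good (w0 lam ρ) := by
  have h1 : Good fun θ : Fin d → ℝ => ∏ k : Fin d, circ (ρ k.succ) (θ k) :=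
    ⟨contDiff_prod fun k _ => (contDiff_circ _).comp (contDiff_apply ℝ ℝ k),
      fun θ => Finset.prod_ne_zero_iff.2 fun k _ => by
        rw [← norm_ne_zero_iff, norm_circ (hρ _).le]
        exact (hρ _).ne'⟩
  have h2 := (good_const (d := d) hlam).mul h1
  exact ⟨h2.smooth.inv h2.ne_zero, fun θ => inv_ne_zero (h2.ne_zero θ)⟩

omit hlam hρ in
theorem per_w0 : Per (w0 (d := d) lam ρ) := by
  intro θ i
  unfold w0
  congr 2
  refine Finset.prod_congr rfl fun k _ => ?_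
  by_cases hk : k = i
  · subst hk
    rw [Pi.add_apply, Pi.single_eq_same, circ_add_one]
  · rw [Pi.add_apply, Pi.single_eq_of_ne hk, add_zero]

theorem norm_w0_le (h1 : 1 ≤ ‖lam‖ * ∏ k, ρ k) (θ : Fin d → ℝ) : ‖w0 lam ρ θ‖ ≤ ρ 0 := by
  unfold w0
  rw [norm_inv, norm_mul, norm_prod]
  have h2 : ∀ k : Fin d, ‖circ (ρ k.succ) (θ k)‖ = ρ k.succ := fun k => norm_circ (hρ _).le _
  simp only [h2]
  have h3 : 0 < ‖lam‖ * ∏ k : Fin d, ρ k.succ :=
    mul_pos (norm_pos_iff.2 hlam) (Finset.prod_pos fun k _ => hρ _)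
  rw [inv_le_comm₀ h3 (hρ 0), inv_eq_one_div, div_le_iff₀ (hρ 0)]
  rw [Fin.prod_univ_succ] at h1
  calc (1 : ℝ) ≤ ‖lam‖ * (ρ 0 * ∏ k : Fin d, ρ k.succ) := h1
    _ = ‖lam‖ * (∏ k : Fin d, ρ k.succ) * ρ 0 := by ring

variable (H : ∀ k, Br (β k) (c k) (G k)) (hρc : ∀ k, 32 * ((r k : ℝ) + 1) * ρ k ≤ c k)

include H hρc

omit hlam in
theorem one_Vb (p q : ∀ k, Fin (r k + 1)) (k : Fin d) :
    One (Vb β G ρ p q k) (if p k.succ = q k.succ then 1 else 0) :=
  one_gb (H _) (hρ _) (hρc _) _ _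

omit hlam in
theorem ld_Vb (p q : ∀ k, Fin (r k + 1)) (k : Fin d) (s : ℝ) :
    ‖deriv (Vb β G ρ p q k) s / Vb β G ρ p q k s‖ ≤ 4 * Real.pi :=
  ld_gb (H _) (hρ _) (hρc _) _ _ s

/-- the approximation of the regulators -/
theorem near_Rb (hd : 0 < d) (h1 : 1 ≤ ‖lam‖ * ∏ k, ρ k) (p q : ∀ k, Fin (r k + 1)) :
    |Rb lam β G ρ p q - (2 * Real.pi) ^ d *
      (Real.log ‖lam‖ * (∏ k, if p k = q k then (1 : ℝ) else 0) +
        ∑ k, (∏ l ∈ Finset.univ.erase k, if p l = q l then (1 : ℝ) else 0) *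
          LL (β k) (p k) (q k))| ≤
      ∑ k, ((r k : ℝ) + 1) * (24 * ρ k / c k * (4 * Real.pi) ^ d) := by
  classical
  have hpi := Real.pi_pos
  have gw := good_w0' (d := d) hlam hρ
  have hV := one_Vb hρ H hρc p q
  have hVC := ld_Vb hρ H hρc p q
  have gV : ∀ k, Good (vf (Vb β G ρ p q) k) := fun k => (hV k).good k
  have hE : ∀ k, 0 ≤ ((r k : ℝ) + 1) * (24 * ρ k / c k * (4 * Real.pi) ^ d) := fun k => by
    have := hρ k
    have := (H k).pos
    positivity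
  -- the regulator with the factor of index 0
  have hw0 : pairing (Fin.cons (w0 lam ρ) (vf (Vb β G ρ p q))) =
      -((2 * Real.pi) ^ d * Real.log ‖lam‖ * ∏ k : Fin d, if p k.succ = q k.succ then (1 : ℝ) else 0) -
        ∑ k : Fin d, pairing (Fin.cons (fun θ => circ (ρ k.succ) (θ k)) (vf (Vb β G ρ p q))) := by
    have gc : ∀ k : Fin d, Good fun θ : Fin d → ℝ => circ (ρ k.succ) (θ k) := fun k =>
      (one_circ' (H k.succ) (hρ _) (hρc _)).good k
    have e1 := pairing_one hV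
    have e2 : (fun _ : Fin d → ℝ => (1 : ℂ)) = fun θ => w0 lam ρ θ *
        (lam * ∏ k : Fin d, circ (ρ k.succ) (θ k)) := by
      funext θ
      unfold w0
      rw [inv_mul_cancel₀]
      exact ((good_const (d := d) hlam).mul (good_prod Finset.univ gc)).ne_zero θ
    rw [e2, pairing_cons_mul gw ((good_const hlam).mul (good_prod Finset.univ gc)) gV,
      pairing_cons_mul (good_const hlam) (good_prod Finset.univ gc) gV, pairing_const _ _ _ hV,
      pairing_prod Finset.univ gc hV] at e1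
    linarith
  have hall := near_all (H 0) (hρ 0) (hρc 0) hd hV hVC gw per_w0 (norm_w0_le hlam hρ h1) (q 0) (p 0)
  have hslot : ∀ k : Fin d, |pairing (Fin.cons (fun θ => circ (ρ k.succ) (θ k))
      (vf (Vb β G ρ p q))) - (2 * Real.pi) ^ d *
        ((∏ i ∈ Finset.univ.erase k, if p i.succ = q i.succ then (1 : ℝ) else 0) *
          LL (β k.succ) (p k.succ) (q k.succ))| ≤
      ((r k.succ : ℝ) + 1) * (24 * ρ k.succ / c k.succ * (4 * Real.pi) ^ d) := fun k =>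
    near_slot (H k.succ) (hρ _) (hρc _) hd hV hVC k (q k.succ) (p k.succ) rfl (by linarith)
  set A : ℝ := pairing (Fin.cons (fun θ => G 0 (q 0) (w0 lam ρ θ) - β 0 (p 0))
    (vf (Vb β G ρ p q))) with hA
  set T : Fin d → ℝ := fun k => pairing (Fin.cons (fun θ => circ (ρ k.succ) (θ k))
      (vf (Vb β G ρ p q))) with hT
  set δ0 : ℝ := if p 0 = q 0 then 1 else 0 with hδ0
  have hδ1 : 0 ≤ δ0 ∧ δ0 ≤ 1 := by
    rw [hδ0]
    split_ifs <;> constructor <;> norm_num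
  have hif : (if p 0 = q 0 then pairing (Fin.cons (w0 lam ρ) (vf (Vb β G ρ p q))) else 0) =
      δ0 * pairing (Fin.cons (w0 lam ρ) (vf (Vb β G ρ p q))) := by
    rw [hδ0]
    split_ifs <;> ring
  rw [hif, hw0] at hall
  have hmain : (2 * Real.pi) ^ d *
      (Real.log ‖lam‖ * (∏ k, if p k = q k then (1 : ℝ) else 0) +
        ∑ k, (∏ l ∈ Finset.univ.erase k, if p l = q l then (1 : ℝ) else 0) *
          LL (β k) (p k) (q k)) =
      δ0 * ((2 * Real.pi) ^ d * Real.log ‖lam‖ *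
        ∏ k : Fin d, if p k.succ = q k.succ then (1 : ℝ) else 0) +
      (2 * Real.pi) ^ d * LL (β 0) (p 0) (q 0) *
        (∏ k : Fin d, if p k.succ = q k.succ then (1 : ℝ) else 0) +
      δ0 * ∑ k : Fin d, (2 * Real.pi) ^ d *
        ((∏ i ∈ Finset.univ.erase k, if p i.succ = q i.succ then (1 : ℝ) else 0) *
          LL (β k.succ) (p k.succ) (q k.succ)) := by
    rw [Fin.prod_univ_succ, Fin.sum_univ_succ, prod_erase_zero]
    have h2 : ∀ k : Fin d, (∏ l ∈ Finset.univ.erase k.succ, if p l = q l then (1 : ℝ) else 0) *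
        LL (β k.succ) (p k.succ) (q k.succ) = δ0 *
        ((∏ l ∈ Finset.univ.erase k, if p l.succ = q l.succ then (1 : ℝ) else 0) *
          LL (β k.succ) (p k.succ) (q k.succ)) := by
      intro k
      rw [prod_erase_succ, hδ0]
      ring
    simp only [h2]
    rw [← Finset.mul_sum, ← Finset.mul_sum]
    ring
  have hsum : |∑ k : Fin d, (T k - (2 * Real.pi) ^ d *
        ((∏ i ∈ Finset.univ.erase k, if p i.succ = q i.succ then (1 : ℝ) else 0) *
          LL (β k.succ) (p k.succ) (q k.succ)))| ≤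
      ∑ k : Fin d, ((r k.succ : ℝ) + 1) * (24 * ρ k.succ / c k.succ * (4 * Real.pi) ^ d) :=
    (Finset.abs_sum_le_sum_abs _ _).trans (Finset.sum_le_sum fun k _ => hslot k)
  unfold Rb
  have hR : ∑ k : Fin (d + 1), ((r k : ℝ) + 1) * (24 * ρ k / c k * (4 * Real.pi) ^ d) =
      ((r 0 : ℝ) + 1) * (24 * ρ 0 / c 0 * (4 * Real.pi) ^ d) +
      ∑ k : Fin d, ((r k.succ : ℝ) + 1) * (24 * ρ k.succ / c k.succ * (4 * Real.pi) ^ d) :=
    Fin.sum_univ_succ _
  rw [hmain, hR]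
  have hfin : -A - (δ0 * ((2 * Real.pi) ^ d * Real.log ‖lam‖ *
        ∏ k : Fin d, if p k.succ = q k.succ then (1 : ℝ) else 0) +
      (2 * Real.pi) ^ d * LL (β 0) (p 0) (q 0) *
        (∏ k : Fin d, if p k.succ = q k.succ then (1 : ℝ) else 0) +
      δ0 * ∑ k : Fin d, (2 * Real.pi) ^ d *
        ((∏ i ∈ Finset.univ.erase k, if p i.succ = q i.succ then (1 : ℝ) else 0) *
          LL (β k.succ) (p k.succ) (q k.succ))) =
      -(A - (δ0 * (-((2 * Real.pi) ^ d * Real.log ‖lam‖ *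
        ∏ k : Fin d, if p k.succ = q k.succ then (1 : ℝ) else 0) - ∑ k : Fin d, T k) -
        (2 * Real.pi) ^ d * LL (β 0) (p 0) (q 0) *
        ∏ k : Fin d, if p k.succ = q k.succ then (1 : ℝ) else 0)) +
      δ0 * ∑ k : Fin d, (T k - (2 * Real.pi) ^ d *
        ((∏ i ∈ Finset.univ.erase k, if p i.succ = q i.succ then (1 : ℝ) else 0) *
          LL (β k.succ) (p k.succ) (q k.succ))) := by
    rw [Finset.sum_sub_distrib]
    ring
  rw [hfin]
  refine (abs_add_le _ _).trans ?_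
  rw [abs_neg, abs_mul, abs_of_nonneg hδ1.1]
  refine add_le_add hall ?_
  refine (mul_le_of_le_one_left (abs_nonneg _) hδ1.2).trans hsum

end Pool.Agent.Run7.h363.CV
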