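import Pool.Agent.Run7.h363.CV.Main
import Pool.Agent.Run7.h363.BD.Tori
set_option autoImplicit false

/-!
The tori on the hypersurface `λ ∏_k ∏_i (x_k - a_{k,i}) = 1` on which the absolute values of the factors are
constant, and the regulator matrix.
-/

namespace Pool.Agent.Run7.h363.CV

open Polynomial

open Pool.Agent.TH826.MK

open Pool.Agent.TH826.MH (CRing fpol ent ux mkT mkT_ux evX_fpol)

open Pool.Agent.TH826.UM (pair_expand)

open Pool.Agent.TH826

open Pool.Agent.Run7.h363.BD (LL kron_sum exists_columns_of_pos)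

/-- the constant -/
noncomputable def Cn (d : ℕ) (r : Fin (d + 1) → ℕ) : ℝ :=
  48 * 2 ^ d * ((d : ℝ) + 1) * (∏ k, ((r k : ℝ) + 1)) ^ 2

theorem one_le_N {d : ℕ} (r : Fin (d + 1) → ℕ) : (1 : ℝ) ≤ ∏ k, ((r k : ℝ) + 1) :=
  Finset.one_le_prod fun k _ => by
    have : (0 : ℝ) ≤ r k := Nat.cast_nonneg _
    linarith

theorem le_N {d : ℕ} (r : Fin (d + 1) → ℕ) (k : Fin (d + 1)) :
    (r k : ℝ) + 1 ≤ ∏ k, ((r k : ℝ) + 1) := by
  rw [← Finset.mul_prod_erase _ _ (Finset.mem_univ k)]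
  refine le_mul_of_one_le_right (by positivity) ?_
  exact Finset.one_le_prod fun k _ => by
    have : (0 : ℝ) ≤ r k := Nat.cast_nonneg _
    linarith

theorem Cn_ge (d : ℕ) (r : Fin (d + 1) → ℕ) : 48 ≤ Cn d r := by
  have h1 := one_le_N r
  have h2 : (1 : ℝ) ≤ 2 ^ d := one_le_pow₀ (by norm_num)
  have h3 : (0 : ℝ) ≤ d := Nat.cast_nonneg _
  have h4 : (1 : ℝ) ≤ (∏ k, ((r k : ℝ) + 1)) ^ 2 := one_le_pow₀ h1
  unfold Cn
  have h5 : (1 : ℝ) ≤ 2 ^ d * ((d : ℝ) + 1) := one_le_mul_of_one_le_of_one_le h2 (by linarith)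
  have h6 := one_le_mul_of_one_le_of_one_le h5 h4
  nlinarith

/-- tori on the hypersurface -/
theorem exists_tori {K : Type*} [Field K] {σ : K →+* ℂ} {lam : K} {d : ℕ} (hd : 0 < d)
    {r : Fin (d + 1) → ℕ} {a : ∀ k, Fin (r k + 1) → K}
    (hinj : ∀ k, Function.Injective (a k)) {c : Fin (d + 1) → ℝ} (hc : ∀ k, 0 < c k)
    (hcrit : ∀ k x, (derivative (∏ i, (X - C (σ (a k i))))).eval x = 0 →
      c k ≤ ‖(∏ i, (X - C (σ (a k i)))).eval x‖)
    (hlam : Cn d r ^ (d + 1) ≤ ‖σ lam‖ * ∏ k, c k) :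
    ∃ Γ : (∀ k, Fin (r k)) → Torus (CRing lam a) d,
      (∀ t θ (x : K), (Γ t).e θ (fpol lam a (MvPolynomial.C x)) = σ x) ∧
      (Matrix.of fun t i : (∀ k, Fin (r k)) => (Γ t).reg (symb (ent lam a i))).det ≠ 0 := by
  classical
  have hpi := Real.pi_pos
  have hCn := Cn_ge d r
  have hCn0 : 0 < Cn d r := by linarith
  set β : ∀ k : Fin (d + 1), Fin (r k + 1) → ℂ := fun k i => σ (a k i) with hβ
  have hβi : ∀ k, Function.Injective (β k) := fun k => σ.injective.comp (hinj k)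
  have hlam0 : σ lam ≠ 0 := by
    intro h
    rw [h, norm_zero, zero_mul] at hlam
    have := pow_pos hCn0 (d + 1)
    linarith
  choose G H using fun k => exists_br (β k) (hβi k) (hc k) (hcrit k)
  set ρ : Fin (d + 1) → ℝ := fun k => c k / Cn d r with hρd
  have hρ : ∀ k, 0 < ρ k := fun k => div_pos (hc k) hCn0
  have hN1 := one_le_N r
  have hNC : ∀ k, 32 * ((r k : ℝ) + 1) ≤ Cn d r := by
    intro k
    have h1 := le_N r k
    have h2 : (1 : ℝ) ≤ 2 ^ d := one_le_pow₀ (by norm_num)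
    have h3 : (0 : ℝ) ≤ d := Nat.cast_nonneg _
    have h5 : (1 : ℝ) ≤ 2 ^ d * ((d : ℝ) + 1) := one_le_mul_of_one_le_of_one_le h2 (by linarith)
    unfold Cn
    set N := ∏ k, ((r k : ℝ) + 1) with hN
    have h6 : N ≤ N ^ 2 := by nlinarith
    calc 32 * ((r k : ℝ) + 1) ≤ 48 * N := by linarith
      _ ≤ 48 * N ^ 2 := by linarith
      _ ≤ 48 * (2 ^ d * ((d : ℝ) + 1)) * N ^ 2 := by nlinarith
      _ = _ := by ring
  have hρc : ∀ k, 32 * ((r k : ℝ) + 1) * ρ k ≤ c k := by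
    intro k
    have h1 := hc k
    simp only [hρd]
    rw [← mul_div_assoc, div_le_iff₀ hCn0, mul_comm (c k)]
    exact mul_le_mul_of_nonneg_right (hNC k) h1.le
  have h1 : 1 ≤ ‖σ lam‖ * ∏ k, ρ k := by
    simp only [hρd]
    rw [Finset.prod_div_distrib, Finset.prod_const, Finset.card_univ, Fintype.card_fin,
      ← mul_div_assoc, le_div_iff₀ (pow_pos hCn0 _), one_mul]
    exact hlam
  have gw : Good (w0 (d := d) (σ lam) ρ) := good_w0' hlam0 hρ
  have hw : ∀ θ, ‖w0 (d := d) (σ lam) ρ θ‖ ≤ ρ 0 := norm_w0_le hlam0 hρ h1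
  set X : (∀ k, Fin (r k + 1)) → (Fin d → ℝ) → (Fin (d + 1) → ℂ) := fun q θ =>
    Fin.cons (G 0 (q 0) (w0 (σ lam) ρ θ))
      (fun k => G k.succ (q k.succ) (circ (ρ k.succ) (θ k))) with hX
  have hX0 : ∀ q θ, X q θ 0 = G 0 (q 0) (w0 (σ lam) ρ θ) := fun q θ => rfl
  have hXs : ∀ q θ (k : Fin d), X q θ k.succ = G k.succ (q k.succ) (circ (ρ k.succ) (θ k)) :=
    fun q θ k => rfl
  have hXc : ∀ q, ContDiff ℝ 2 (X q) := by
    intro q
    refine contDiff_pi.2 fun k => ?_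
    refine Fin.cases ?_ (fun k => ?_) k
    · simp only [hX0]
      exact contDiff_Gw (H 0) (hρ 0) (hρc 0) gw hw (q 0)
    · simp only [hXs]
      exact (contDiff_G (H k.succ) (hρ _) (hρc _) (q k.succ)).comp (contDiff_apply ℝ ℝ k)
  have hXp : ∀ q θ i, X q (θ + Pi.single i 1) = X q θ := by
    intro q θ i
    funext k
    refine Fin.cases ?_ (fun k => ?_) k
    · rw [hX0, hX0, per_w0 θ i]
    · rw [hXs, hXs]
      congr 1
      by_cases hk : k = i
      · subst hk
        rw [Pi.add_apply, Pi.single_eq_same, circ_add_one]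
      · rw [Pi.add_apply, Pi.single_eq_of_ne hk, add_zero]
  have hmemc : ∀ (θ : Fin d → ℝ) (k : Fin d), circ (ρ k.succ) (θ k) ∈ Metric.ball (0 : ℂ) (c k.succ) :=
    fun θ k => circ_mem (H k.succ) (hρ _) (hρc _) (θ k)
  have hXx : ∀ q θ, σ lam * ∏ k, ∏ i, (X q θ k - σ (a k i)) = 1 := by
    intro q θ
    rw [Fin.prod_univ_succ]
    have h1 : ∏ i, (X q θ 0 - σ (a 0 i)) = w0 (σ lam) ρ θ :=
      (H 0).prod (q 0) _ ((H 0).mem (hρ 0) (hρc 0) (hw θ))
    have h2 : ∏ k : Fin d, ∏ i, (X q θ k.succ - σ (a k.succ i)) =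
        ∏ k : Fin d, circ (ρ k.succ) (θ k) :=
      Finset.prod_congr rfl fun k _ => (H k.succ).prod (q k.succ) _ (hmemc θ k)
    rw [h1, h2]
    unfold w0
    have h3 : ∏ k : Fin d, circ (ρ k.succ) (θ k) ≠ 0 :=
      Finset.prod_ne_zero_iff.2 fun k _ => by
        rw [← norm_ne_zero_iff, norm_circ (hρ _).le]
        exact (hρ _).ne'
    field_simp
  set Γ' : (∀ k, Fin (r k + 1)) → Torus (CRing lam a) d := fun q =>
    mkT (X q) (hXc q) (hXp q) (hXx q) with hΓ'
  set W : Matrix (∀ k, Fin (r k + 1)) (∀ k, Fin (r k + 1)) ℝ :=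
    Matrix.of fun p q => (Γ' q).pair fun k => ux lam a k (p k) with hW
  set R : Matrix (∀ k, Fin (r k + 1)) (∀ k, Fin (r k + 1)) ℝ :=
    Matrix.of fun p q => Rb (σ lam) β G ρ p q with hR
  have hWR : ∀ p q, W p q = -R p q := by
    intro p q
    rw [hW, hR, Matrix.of_apply, Matrix.of_apply]
    unfold Rb
    rw [neg_neg]
    unfold Torus.pair
    congr 1
    funext k θ
    rw [hΓ', mkT_ux]
    refine Fin.cases ?_ (fun k => ?_) k
    · rfl
    · rfl
  -- the main term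
  set S : (∀ k, Fin (r k + 1)) → (∀ k, Fin (r k + 1)) → ℝ := fun p q =>
    (2 * Real.pi) ^ d * (Real.log ‖σ lam‖ * (∏ k, if p k = q k then (1 : ℝ) else 0) +
      ∑ k, (∏ l ∈ Finset.univ.erase k, if p l = q l then (1 : ℝ) else 0) *
        LL (β k) (p k) (q k)) with hS
  have hSpos : ∀ u : (∀ k, Fin (r k + 1)) → ℝ, (∀ k p, ∑ x, u (Function.update p k x) = 0) →
      ((2 * Real.pi) ^ d * (Real.log ‖σ lam‖ + ∑ k, Real.log (c k))) * ∑ p, u p ^ 2 ≤
        ∑ p, ∑ q, u p * (S p q * u q) := by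
    intro u hu
    have h1 := kron_sum (fun k => LL (β k)) (fun k => Real.log (c k)) (Real.log ‖σ lam‖)
      (fun k v hv => energy (β k) (hβi k) (hc k) (hcrit k) v hv) u hu
    have h2 := mul_le_mul_of_nonneg_left h1 (by positivity : 0 ≤ (2 * Real.pi) ^ d)
    rw [mul_assoc]
    refine h2.trans (le_of_eq ?_)
    rw [Finset.mul_sum]
    refine Finset.sum_congr rfl fun p _ => ?_
    rw [Finset.mul_sum]
    refine Finset.sum_congr rfl fun q _ => ?_
    rw [hS]
    ring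
  set E : ℝ := ∑ k, ((r k : ℝ) + 1) * (24 * ρ k / c k * (4 * Real.pi) ^ d) with hE
  have hnear : ∀ p q, |R p q - S p q| ≤ E := fun p q => near_Rb hlam0 hρ H hρc hd h1 p q
  have hNE : (∏ k, ((r k : ℝ) + 1)) * E ≤ (2 * Real.pi) ^ d * (1 / 2) := by
    have e1 : ∀ k, ((r k : ℝ) + 1) * (24 * ρ k / c k * (4 * Real.pi) ^ d) ≤
        (∏ k, ((r k : ℝ) + 1)) * (24 / Cn d r * (4 * Real.pi) ^ d) := by
      intro k
      have e2 : 24 * ρ k / c k = 24 / Cn d r := by
        simp only [hρd]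
        have := (hc k).ne'
        field_simp
      rw [e2]
      refine mul_le_mul_of_nonneg_right (le_N r k) (by positivity)
    have e2 : E ≤ ((d : ℝ) + 1) * ((∏ k, ((r k : ℝ) + 1)) * (24 / Cn d r * (4 * Real.pi) ^ d)) := by
      refine (Finset.sum_le_sum fun k _ => e1 k).trans (le_of_eq ?_)
      rw [Finset.sum_const, Finset.card_univ, Fintype.card_fin, nsmul_eq_mul]
      push_cast
      ring
    refine (mul_le_mul_of_nonneg_left e2 (by linarith)).trans (le_of_eq ?_)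
    unfold Cn
    have e3 : (4 * Real.pi) ^ d = 2 ^ d * (2 * Real.pi) ^ d := by
      rw [← mul_pow]
      ring
    rw [e3]
    have h5 : (∏ k, ((r k : ℝ) + 1)) ≠ 0 := by linarith
    have h6 : ((d : ℝ) + 1) ≠ 0 := by positivity
    field_simp
    ring
  have hlog : 1 / 2 < Real.log ‖σ lam‖ + ∑ k, Real.log (c k) := by
    have e1 : Real.log ‖σ lam‖ + ∑ k, Real.log (c k) = Real.log (‖σ lam‖ * ∏ k, c k) := by
      rw [Real.log_mul (norm_ne_zero_iff.2 hlam0) (Finset.prod_ne_zero_iff.2 fun k _ => (hc k).ne'),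
        Real.log_prod (fun k _ => (hc k).ne')]
    rw [e1]
    have e2 : (48 : ℝ) ≤ ‖σ lam‖ * ∏ k, c k := by
      refine le_trans ?_ hlam
      refine hCn.trans ?_
      exact le_self_pow₀ (by linarith) (by omega)
    have e3 : (1 / 2 : ℝ) < Real.log 48 := by
      have h5 : (1 / 2 : ℝ) < Real.log 2 := by
        have := Real.log_two_gt_d9
        linarith
      exact h5.trans (Real.log_lt_log (by norm_num) (by norm_num))
    exact e3.trans_le (Real.log_le_log (by norm_num) e2)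
  obtain ⟨f, hf⟩ := exists_columns_of_pos R S hSpos hnear (by
    rw [Fintype.card_pi]
    simp only [Fintype.card_fin]
    push_cast
    refine lt_of_le_of_lt hNE ?_
    exact mul_lt_mul_of_pos_left hlog (by positivity))
  refine ⟨fun t => Γ' (f t), fun t θ x => ?_, ?_⟩
  · show MH.evX (hXx (f t) θ) (fpol lam a (MvPolynomial.C x)) = σ x
    rw [evX_fpol]
    simp
  · have hM : (Matrix.of fun t i : (∀ k, Fin (r k)) =>
        (Γ' (f t)).reg (symb (ent lam a i))) = -Matrix.of fun t i : (∀ k, Fin (r k)) =>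
        ∑ p, (∏ k, UB.dd (i k) (p k)) * R p (f t) := by
      ext t i
      rw [Matrix.neg_apply, Matrix.of_apply, Matrix.of_apply, Torus.reg_symb]
      have h1 := pair_expand (Γ' (f t)) (fun k => ux lam a k) i
      refine h1.trans ?_
      rw [← Finset.sum_neg_distrib]
      refine Finset.sum_congr rfl fun p _ => ?_
      have h2 : (Γ' (f t)).pair (fun k => ux lam a k (p k)) = W p (f t) := rfl
      rw [h2, hWR]
      ring
    rw [hM, Matrix.det_neg]
    exact mul_ne_zero (pow_ne_zero _ (by norm_num)) hf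

end Pool.Agent.Run7.h363.CV
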